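import Pool.Agent.Helper42.TT.LB

/-!
# DIR: an integer 3-adically close to a sum of far apart units (MP_9d5c58_nt)
-/

set_option autoImplicit false

open NumberField Pool.Agent.Helper92.Ru Pool.Agent.Helper17.Rg

namespace Pool.Agent.Helper42.TT

variable {T : Finset (FinitePlace ℚ)}

theorem rpow_two_le_three (y : ℝ) (hy : 0 ≤ y) : (2 : ℝ) ^ y ≤ 3 ^ y :=
  Real.rpow_le_rpow (by norm_num) (by norm_num) hy

theorem dir (hS : SubY) (hT : ∀ w : FinitePlace ℚ, w ∉ T → w (7 : ℚ) = 1 ∧ w (3 : ℚ) = 1)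
    (v3 : SP ℚ T) (h33 : nS v3 (3 : ℚ) = 1 / 3) (h37 : nS v3 (7 : ℚ) = 1)
    (h3I : ∀ n : ℤ, nS v3 (n : ℚ) ≤ 1) (r : ℕ) (δ θ : ℝ) (hδ : 0 < δ) (hθ : 0 < θ) :
    ∃ η : ℝ, 0 < η ∧ ∃ N0 : ℕ, ∀ N : ℕ, N0 ≤ N → ∀ (a b C : Fin r → ℤ) (D u : ℤ),
      (∀ i, |a i| ≤ N ∧ |b i| ≤ N) → (∀ i j, |a i - a j| ≤ |b i - b j|) →
      (∀ i j, i ≠ j → θ * N < |((b i - b j : ℤ) : ℝ)|) →
      (∀ i, C i ≠ 0 ∧ |(C i : ℝ)| ≤ (2 : ℝ) ^ (η * N)) →
      D ≠ 0 → |(D : ℝ)| ≤ (2 : ℝ) ^ (η * N) → u ≠ 0 → |(u : ℝ)| ≤ (3 : ℝ) ^ ((1 - δ) * N) →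
      nS v3 (-((D * u : ℤ) : ℚ) + ∑ i, (C i : ℚ) * ((7 : ℚ) ^ a i * 3 ^ b i)) ≤
        (3 : ℝ) ^ (-(N : ℤ)) →
      ∃ κ : ℝ, ((D * u : ℤ) : ℚ) = ∑ i ∈ Finset.univ.filter (fun i => (b i : ℝ) < κ),
        (C i : ℚ) * ((7 : ℚ) ^ a i * 3 ^ b i) := by
  classical
  obtain ⟨v7, h77, h73, h7I⟩ := exists_v7 hT
  obtain ⟨BB, hBB0, hBB⟩ := term_log (T := T)
  have hl2 : 0 < Real.log 2 := Real.log_pos (by norm_num)
  have hl21 : Real.log 2 < 1 := by
    have := Real.log_two_lt_d9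
    linarith
  have hl23 : Real.log 2 < Real.log 3 := Real.log_lt_log (by norm_num) (by norm_num)
  have hl3 : 0 < Real.log 3 := hl2.trans hl23
  have hl32 : Real.log 3 < 2 := by
    have h1 : Real.log 3 < Real.log 4 := Real.log_lt_log (by norm_num) (by norm_num)
    have h2 : Real.log 4 = 2 * Real.log 2 := by
      rw [show (4:ℝ) = 2 ^ 2 by norm_num, Real.log_pow]; norm_num
    linarith
  have hδ' : 0 < δ / 12 := by linarith
  -- LB for all subsets
  choose ηf hηf Nf hNf using fun s : Finset (Fin r) => lbm hS hT s (δ / 12) θ hδ' hθ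
  obtain ⟨c1, hc1, hc1'⟩ := exists_pos_le (Finset.univ : Finset (Finset (Fin r))) ηf
    (fun t _ => hηf t)
  obtain ⟨N1, F, hF, hmain⟩ := s0Z (T := T) hS (r := r + 1) (BB + 5) (δ / 2 * Real.log 3)
    (by positivity)
  obtain ⟨Q, hQ0, hQ⟩ := exists_ge_real F (fun q => ∑ i, |(q i : ℝ)|)
  set η : ℝ := min (min 1 (δ / 4)) (min (δ / (2 * (r + 1))) (c1 / 2)) with hη
  have hrpos : (0:ℝ) < 2 * (r + 1) := by positivity
  have hη0 : 0 < η := by
    refine lt_min (lt_min one_pos (by linarith)) (lt_min ?_ ?_) <;> positivity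
  have hη1 : η ≤ 1 := (min_le_left _ _).trans (min_le_left _ _)
  have hη4 : η ≤ δ / 4 := (min_le_left _ _).trans (min_le_right _ _)
  have hη2 : (r + 1) * η ≤ δ / 2 := by
    have : η ≤ δ / (2 * (r + 1)) := (min_le_right _ _).trans (min_le_left _ _)
    rw [le_div_iff₀ hrpos] at this
    linarith
  have hη3 : η ≤ c1 / 2 := (min_le_right _ _).trans (min_le_right _ _)
  obtain ⟨N2, hN2⟩ : ∃ N2 : ℕ, Q ≤ (2 : ℝ) ^ (c1 / 2 * (N2 : ℝ)) := by
    have h2 : (1:ℝ) < (2:ℝ) ^ (c1 / 2) := Real.one_lt_rpow (by norm_num) (by positivity)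
    obtain ⟨n, hn⟩ := pow_unbounded_of_one_lt Q h2
    refine ⟨n, ?_⟩
    rw [Real.rpow_mul (by norm_num), Real.rpow_natCast]
    exact hn.le
  obtain ⟨N3, hN3⟩ : ∃ N3 : ℕ, Q ≤ (3 : ℝ) ^ (δ / 4 * (N3 : ℝ)) := by
    have h2 : (1:ℝ) < (3:ℝ) ^ (δ / 4) := Real.one_lt_rpow (by norm_num) (by positivity)
    obtain ⟨n, hn⟩ := pow_unbounded_of_one_lt Q h2
    refine ⟨n, ?_⟩
    rw [Real.rpow_mul (by norm_num), Real.rpow_natCast]
    exact hn.le
  refine ⟨η, hη0, max (max (max N1 N2) (max N3 1)) (Finset.univ.sup Nf),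
    fun N hN a b C D u hab hlip hfar hC hD hDb hu hub hsm => ?_⟩
  have hNa := (le_max_left _ _).trans hN
  have hNN1 : N1 ≤ N := ((le_max_left _ _).trans (le_max_left _ _)).trans hNa
  have hNN2 : N2 ≤ N := ((le_max_right _ _).trans (le_max_left _ _)).trans hNa
  have hNN3 : N3 ≤ N := ((le_max_left _ _).trans (le_max_right _ _)).trans hNa
  have hNN4 : 1 ≤ N := ((le_max_right _ _).trans (le_max_right _ _)).trans hNa
  have hNN5 : ∀ t : Finset (Fin r), Nf t ≤ N := fun t =>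
    (Finset.le_sup (Finset.mem_univ t)).trans ((le_max_right _ _).trans hN)
  have hNpos : (0:ℝ) < N := by exact_mod_cast hNN4
  have hQ2 : Q ≤ (2 : ℝ) ^ (c1 / 2 * (N : ℝ)) := by
    refine hN2.trans (Real.rpow_le_rpow_of_exponent_le (by norm_num) ?_)
    have : (N2 : ℝ) ≤ N := by exact_mod_cast hNN2
    gcongr
  have hQ3 : Q ≤ (3 : ℝ) ^ (δ / 4 * (N : ℝ)) := by
    refine hN3.trans (Real.rpow_le_rpow_of_exponent_le (by norm_num) ?_)
    have : (N3 : ℝ) ≤ N := by exact_mod_cast hNN3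
    gcongr
  have hCl : ∀ k, Real.log |(C k : ℝ)| ≤ η * N * Real.log 2 := fun k =>
    log_le_of_le_two_rpow _ (hC k).1 _ (hC k).2
  set n : ℤ := -(D * u) with hn
  have hn0 : n ≠ 0 := neg_ne_zero.2 (mul_ne_zero hD hu)
  have hnq : (n : ℚ) ≠ 0 := by exact_mod_cast hn0
  have habsn : |(n : ℝ)| = |(D : ℝ)| * |(u : ℝ)| := by
    rw [hn]; push_cast; rw [abs_neg, abs_mul]
  have hnl : Real.log |(n : ℝ)| ≤ η * N * Real.log 2 + (1 - δ) * N * Real.log 3 := by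
    have hDr : 0 < |(D : ℝ)| := abs_pos.2 (by exact_mod_cast hD)
    have hur : 0 < |(u : ℝ)| := abs_pos.2 (by exact_mod_cast hu)
    rw [habsn, Real.log_mul hDr.ne' hur.ne']
    have h1 := log_le_of_le_two_rpow _ hD _ hDb
    have h2 := Real.log_le_log hur hub
    rw [Real.log_rpow (by norm_num)] at h2
    linarith
  have hnl2 : Real.log |(n : ℝ)| ≤ 3 * N := by
    refine hnl.trans ?_
    have h1 : η * N * Real.log 2 ≤ 1 * N := by nlinarith [mul_pos hη0 hNpos]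
    have h2 : (1 - δ) * N * Real.log 3 ≤ 2 * N := by
      nlinarith [mul_pos hδ hNpos, mul_pos (mul_pos hδ hNpos) hl3]
    linarith
  have hterm : ∀ (v' : SP ℚ T) (k : Fin r),
      |Real.log (nS (T := T) v' ((C k : ℚ) * ((7 : ℚ) ^ a k * 3 ^ b k)))| ≤ (BB + 5) * N := by
    intro v' k
    have h1 := hBB v' (C k) (hC k).1 (a k) (b k) N (hab k).1 (hab k).2
    have h2 := hCl k
    have h3 : η * N * Real.log 2 ≤ 1 * N := by nlinarith [mul_pos hη0 hNpos]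
    nlinarith
  -- the Subspace theorem
  obtain ⟨q, hq, hq0⟩ := hmain v3 0 N hNN1
    (Fin.cons (n : ℚ) (fun k => (C k : ℚ) * ((7 : ℚ) ^ a k * 3 ^ b k)))
    (fun k => by
      refine Fin.cases ?_ (fun k => ?_) k
      · exact hnq
      · exact mul_ne_zero (by exact_mod_cast (hC k).1) (unit_ne _ _))
    (fun k => by
      refine Fin.cases ?_ (fun k => ?_) k
      · exact fun w _ => w_int_le w n
      · exact term_SInt hT _ _ _)
    (fun v' k => by
      refine Fin.cases ?_ (fun k => ?_) k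
      · refine (int_log n hn0 v').trans (hnl2.trans ?_)
        nlinarith
      · exact hterm v' k)
    (N * Real.log 3 + Real.log (nS v3 (n : ℚ)))
    (by
      have h1 := int_log n hn0 v3
      refine (abs_add_le _ _).trans ?_
      rw [abs_of_pos (by positivity : (0:ℝ) < N * Real.log 3)]
      nlinarith)
    (by
      rw [Fin.sum_univ_succ]
      simp only [Fin.cons_zero, Fin.cons_succ]
      rw [neg_add, Real.exp_add, Real.exp_neg (Real.log _), Real.exp_log (nS_pos v3 hnq)]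
      have h5 : nS v3 (n : ℚ) ≠ 0 := (nS_pos v3 hnq).ne'
      have h6 : (3 : ℝ) ^ (-(N : ℤ)) = Real.exp (-(N * Real.log 3)) := by
        rw [zpow_neg, zpow_natCast, Real.exp_neg, mul_comm, Real.exp_mul, Real.exp_log (by norm_num),
          Real.rpow_natCast]
      have h7 : nS v3 (n : ℚ) * (Real.exp (-(N * Real.log 3)) * (nS v3 (n : ℚ))⁻¹) =
          Real.exp (-(N * Real.log 3)) := by
        field_simp
      rw [h7, ← h6]
      have h8 : (n : ℚ) = -((D * u : ℤ) : ℚ) := by rw [hn]; push_cast; ring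
      rw [h8]
      exact hsm)
    (by
      rw [Fin.sum_univ_succ]
      simp only [Fin.cons_zero, Fin.cons_succ]
      have h1 : ∑ k : Fin r, ∑ v' : SP ℚ T, Real.log (nS (T := T) v' ((C k : ℚ) *
          ((7 : ℚ) ^ a k * 3 ^ b k))) ≤ ∑ k : Fin r, η * N * Real.log 2 :=
        Finset.sum_le_sum fun k _ => (term_logsum hT _ (hC k).1 _ _).trans (hCl k)
      rw [Finset.sum_const, Finset.card_univ, Fintype.card_fin, nsmul_eq_mul] at h1
      have h2 := int_logsum_le n hn0 v3 (by rw [h33]; norm_num)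
      have h4 : (r + 1) * η * (N * Real.log 2) ≤ δ / 2 * (N * Real.log 3) := by
        refine mul_le_mul hη2 ?_ (by positivity) (by positivity)
        gcongr
      nlinarith)
  rw [Fin.sum_univ_succ] at hq0
  simp only [Fin.cons_zero, Fin.cons_succ] at hq0
  have hqi : ∀ k : Fin r, |(q k.succ : ℝ)| ≤ Q := fun k =>
    (Finset.single_le_sum (f := fun i => |(q i : ℝ)|) (fun _ _ => abs_nonneg _)
      (Finset.mem_univ k.succ)).trans (hQ q hq)
  have hq00 : |(q 0 : ℝ)| ≤ Q :=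
    (Finset.single_le_sum (f := fun i => |(q i : ℝ)|) (fun _ _ => abs_nonneg _)
      (Finset.mem_univ 0)).trans (hQ q hq)
  have hqi0 : ∀ k : Fin r, |((q k.succ - q 0 : ℤ) : ℝ)| ≤ Q := by
    intro k
    push_cast
    refine (abs_sub _ _).trans (le_trans ?_ (hQ q hq))
    rw [Fin.sum_univ_succ]
    have := Finset.single_le_sum (f := fun i : Fin r => |(q i.succ : ℝ)|)
      (fun _ _ => abs_nonneg _) (Finset.mem_univ k)
    linarith
  -- lower bounds
  have hLB : ∀ c : Fin r → ℤ, (∀ k, |(c k : ℝ)| ≤ Q) → ∀ (v : SP ℚ T) (k : Fin r), c k ≠ 0 →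
      nS v ((7 : ℚ) ^ a k * 3 ^ b k) * (2 : ℝ) ^ (-(δ / 12) * N) <
        nS v (∑ j, ((c j : ℚ) * (C j : ℚ)) * ((7 : ℚ) ^ a j * 3 ^ b j)) := by
    intro c hcQ v k hk
    set t : Finset (Fin r) := Finset.univ.filter (fun k => c k ≠ 0) with ht
    have h1 := hNf t N (hNN5 t) a b (fun k => c k * C k) (fun i _ => hab i)
      (fun i _ j _ => hlip i j) (fun i _ j _ hij => hfar i j hij)
      (fun i hi => by
        refine ⟨mul_ne_zero (Finset.mem_filter.1 hi).2 (hC i).1, ?_⟩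
        push_cast
        rw [abs_mul]
        calc |(c i : ℝ)| * |(C i : ℝ)| ≤ (2 : ℝ) ^ (c1 / 2 * (N : ℝ)) * (2 : ℝ) ^ (η * N) := by
              gcongr
              · exact (hcQ i).trans hQ2
              · exact (hC i).2
          _ = (2 : ℝ) ^ (c1 / 2 * (N : ℝ) + η * N) := by
              rw [← Real.rpow_add (by norm_num)]
          _ ≤ (2 : ℝ) ^ (ηf t * N) := by
              apply Real.rpow_le_rpow_of_exponent_le (by norm_num)
              have h4 : c1 ≤ ηf t := hc1' t (Finset.mem_univ _)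
              nlinarith)
      v k (Finset.mem_filter.2 ⟨Finset.mem_univ _, hk⟩)
    have h2 : ∑ j ∈ t, ((c j * C j : ℤ) : ℚ) * ((7 : ℚ) ^ a j * 3 ^ b j) =
        ∑ j, ((c j : ℚ) * (C j : ℚ)) * ((7 : ℚ) ^ a j * 3 ^ b j) := by
      rw [ht, Finset.sum_filter]
      refine Finset.sum_congr rfl fun j _ => ?_
      by_cases h : c j = 0
      · simp [h]
      · simp [h]
    rw [h2] at h1
    exact h1
  have hsumq : ∑ k : Fin r, ((q k.succ : ℚ) * (C k : ℚ)) * ((7 : ℚ) ^ a k * 3 ^ b k) =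
      (q 0 : ℚ) * ((D * u : ℤ) : ℚ) := by
    have h1 : ∑ k : Fin r, ((q k.succ : ℚ) * (C k : ℚ)) * ((7 : ℚ) ^ a k * 3 ^ b k) =
        ∑ k : Fin r, (q k.succ : ℚ) * ((C k : ℚ) * ((7 : ℚ) ^ a k * 3 ^ b k)) :=
      Finset.sum_congr rfl fun k _ => by ring
    rw [h1]
    have h2 : (n : ℚ) = -((D * u : ℤ) : ℚ) := by rw [hn]; push_cast; ring
    rw [h2] at hq0
    linarith
  -- the coefficient of the integer is not zero
  have hq0ne : q 0 ≠ 0 := by
    intro h0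
    obtain ⟨k, hk⟩ : ∃ k : Fin r, q k.succ ≠ 0 := by
      by_contra h
      push Not at h
      apply hF q hq
      funext i
      refine Fin.cases ?_ (fun k => ?_) i
      · exact h0
      · exact h k
    have h1 := hLB (fun k => q k.succ) hqi v3 k hk
    rw [hsumq, h0] at h1
    simp only [Int.cast_zero, zero_mul, nS_zero] at h1
    have h2 : 0 ≤ nS v3 ((7 : ℚ) ^ a k * 3 ^ b k) * (2 : ℝ) ^ (-(δ / 12) * N) :=
      mul_nonneg (nS_nonneg _ _) (Real.rpow_nonneg (by norm_num) _)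
    linarith
  have h2p : (0:ℝ) < (2 : ℝ) ^ (δ / 12 * N) := Real.rpow_pos_of_pos (by norm_num) _
  have hinv : (2 : ℝ) ^ (-(δ / 12) * N) = ((2 : ℝ) ^ (δ / 12 * N))⁻¹ := by
    rw [neg_mul, Real.rpow_neg (by norm_num)]
  have hexp3 : ∀ z : ℤ, (3 : ℝ) ^ z = (3 : ℝ) ^ (z : ℝ) := fun z => (Real.rpow_intCast 3 z).symm
  -- place 3
  have hb3 : ∀ k : Fin r, q k.succ ≠ q 0 → (N : ℝ) - δ / 12 * N < b k := by
    intro k hk
    have h1 := hLB (fun k => q k.succ - q 0) hqi0 v3 k (sub_ne_zero.2 hk)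
    have h2 : ∑ j, (((q j.succ - q 0 : ℤ) : ℚ) * (C j : ℚ)) * ((7 : ℚ) ^ a j * 3 ^ b j) =
        ((-(q 0) : ℤ) : ℚ) * (-((D * u : ℤ) : ℚ) + ∑ i, (C i : ℚ) * ((7 : ℚ) ^ a i * 3 ^ b i)) := by
      have h3 : ∑ j, (((q j.succ - q 0 : ℤ) : ℚ) * (C j : ℚ)) * ((7 : ℚ) ^ a j * 3 ^ b j) =
          ∑ k : Fin r, ((q k.succ : ℚ) * (C k : ℚ)) * ((7 : ℚ) ^ a k * 3 ^ b k) -
            (q 0 : ℚ) * ∑ i, (C i : ℚ) * ((7 : ℚ) ^ a i * 3 ^ b i) := by
        rw [Finset.mul_sum, ← Finset.sum_sub_distrib]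
        refine Finset.sum_congr rfl fun j _ => ?_
        push_cast
        ring
      rw [h3, hsumq]
      push_cast
      ring
    rw [h2, nS_unit_v3 v3 h33 h37, nS_mul] at h1
    have h4 : (3 : ℝ) ^ (-(b k)) * (2 : ℝ) ^ (-(δ / 12) * N) < (3 : ℝ) ^ (-(N : ℤ)) := by
      refine h1.trans_le ?_
      calc nS v3 (((-(q 0) : ℤ) : ℚ)) * nS v3 (-((D * u : ℤ) : ℚ) +
            ∑ i, (C i : ℚ) * ((7 : ℚ) ^ a i * 3 ^ b i)) ≤ 1 * (3 : ℝ) ^ (-(N : ℤ)) :=
            mul_le_mul (h3I _) hsm (nS_nonneg _ _) (by norm_num)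
        _ = _ := one_mul _
    have h5 : (3 : ℝ) ^ (-(b k)) * (3 : ℝ) ^ (-(δ / 12) * N) < (3 : ℝ) ^ (-(N : ℤ)) := by
      refine lt_of_le_of_lt ?_ h4
      refine mul_le_mul_of_nonneg_left ?_ (by positivity)
      rw [hinv, neg_mul, Real.rpow_neg (by norm_num)]
      exact inv_anti₀ h2p (rpow_two_le_three _ (mul_nonneg hδ'.le hNpos.le))
    rw [hexp3, hexp3, ← Real.rpow_add (by norm_num), Real.rpow_lt_rpow_left_iff (by norm_num)] at h5
    push_cast at h5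
    linarith
  -- place 7 and infinity
  have hbI : ∀ k : Fin r, q k.succ ≠ 0 → (b k : ℝ) < N - δ / 12 * N := by
    intro k hk
    have h1 := hLB (fun k => q k.succ) hqi v7 k hk
    rw [hsumq, nS_unit_v7 v7 h77 h73, hinv] at h1
    have h2 : nS v7 ((q 0 : ℚ) * ((D * u : ℤ) : ℚ)) ≤ 1 := by
      have := h7I (q 0 * (D * u))
      push_cast at this ⊢
      exact this
    have h3 : (7 : ℝ) ^ (-(a k)) < (2 : ℝ) ^ (δ / 12 * N) := by
      have h4 := h1.trans_le h2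
      rwa [← div_eq_mul_inv, div_lt_one h2p] at h4
    have h5 := hLB (fun k => q k.succ) hqi vI k hk
    rw [hsumq, nS_unit_vI, hinv, nS_vI] at h5
    have h6 : |(((q 0 : ℚ) * ((D * u : ℤ) : ℚ) : ℚ) : ℝ)| ≤
        Q * ((2 : ℝ) ^ (η * N) * (3 : ℝ) ^ ((1 - δ) * N)) := by
      push_cast
      rw [abs_mul, abs_mul]
      gcongr
    have h7 : (7 : ℝ) ^ (a k) * 3 ^ (b k) <
        Q * ((2 : ℝ) ^ (η * N) * (3 : ℝ) ^ ((1 - δ) * N)) * (2 : ℝ) ^ (δ / 12 * N) := by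
      have h8 := h5.trans_le h6
      rwa [← div_eq_mul_inv, div_lt_iff₀ h2p] at h8
    have h7p : (0:ℝ) < (7 : ℝ) ^ (-(a k)) := by positivity
    have h8 : (3 : ℝ) ^ (b k) = (7 : ℝ) ^ (-(a k)) * ((7 : ℝ) ^ (a k) * 3 ^ (b k)) := by
      rw [← mul_assoc, ← zpow_add₀ (by norm_num)]
      simp
    have h9 : (3 : ℝ) ^ (b k) < (2 : ℝ) ^ (δ / 12 * N) *
        (Q * ((2 : ℝ) ^ (η * N) * (3 : ℝ) ^ ((1 - δ) * N)) * (2 : ℝ) ^ (δ / 12 * N)) := by
      rw [h8]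
      exact mul_lt_mul'' h3 h7 h7p.le (by positivity)
    have h10 : (2 : ℝ) ^ (δ / 12 * N) *
        (Q * ((2 : ℝ) ^ (η * N) * (3 : ℝ) ^ ((1 - δ) * N)) * (2 : ℝ) ^ (δ / 12 * N)) ≤
        (3 : ℝ) ^ (δ / 12 * N) * ((3 : ℝ) ^ (δ / 4 * (N : ℝ)) *
          ((3 : ℝ) ^ (η * N) * (3 : ℝ) ^ ((1 - δ) * N)) * (3 : ℝ) ^ (δ / 12 * N)) := by
      have e1 := rpow_two_le_three (δ / 12 * N) (mul_nonneg hδ'.le hNpos.le)
      have e2 := rpow_two_le_three (η * N) (mul_nonneg hη0.le hNpos.le)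
      gcongr
    have h11 := h9.trans_le h10
    rw [← Real.rpow_add (by norm_num), ← Real.rpow_add (by norm_num),
      ← Real.rpow_add (by norm_num), ← Real.rpow_add (by norm_num), hexp3,
      Real.rpow_lt_rpow_left_iff (by norm_num)] at h11
    have h12 : η * N ≤ δ / 4 * N := by gcongr
    nlinarith [mul_pos hδ hNpos]
  refine ⟨N - δ / 12 * N, ?_⟩
  have hq0q : (q 0 : ℚ) ≠ 0 := by exact_mod_cast hq0ne
  apply mul_left_cancel₀ hq0q
  rw [← hsumq, Finset.sum_filter, Finset.mul_sum]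
  refine Finset.sum_congr rfl fun k _ => ?_
  by_cases hk : q k.succ = 0
  · have h1 := hb3 k (by rw [hk]; exact hq0ne.symm)
    rw [if_neg (by linarith), hk]
    simp
  · have h1 := hbI k hk
    have h2 : q k.succ = q 0 := by
      by_contra h
      have := hb3 k h
      linarith
    rw [if_pos h1, h2]
    ring

end Pool.Agent.Helper42.TT
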