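import Pool.Agent.Helper42.TT.S0

/-!
# LB: lower bounds for sums of far apart units with moving coefficients (MP_9d5c58_nt)
-/

set_option autoImplicit false

open NumberField Pool.Agent.Helper92.Ru Pool.Agent.Helper17.Rg

namespace Pool.Agent.Helper42.TT

variable {T : Finset (FinitePlace ℚ)}

/-- Finset version of `s0Z` -/
theorem s0F (hS : SubY) {ι : Type} [DecidableEq ι] (s : Finset ι) (B δ : ℝ) (hδ : 0 < δ) :
    ∃ (N0 : ℕ) (F : Finset (ι → ℤ)), (∀ q ∈ F, ∃ i ∈ s, q i ≠ 0) ∧ ∀ (v0 : SP ℚ T), ∀ m ∈ s,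
      ∀ N : ℕ, N0 ≤ N → ∀ x : ι → ℚ, (∀ i ∈ s, x i ≠ 0) → (∀ i ∈ s, SInt T (x i)) →
        (∀ v, ∀ i ∈ s, |Real.log (nS (T := T) v (x i))| ≤ B * N) → ∀ E : ℝ, |E| ≤ B * N →
        nS v0 (∑ i ∈ s, x i) ≤ nS v0 (x m) * Real.exp (-E) →
        ∑ i ∈ s, ∑ v, Real.log (nS (T := T) v (x i)) - E ≤ -δ * N →
        ∃ q ∈ F, ∑ i ∈ s, (q i : ℚ) * x i = 0 := by
  classical
  let e := s.equivFin
  have htr : ∀ f : ι → ℚ, ∑ i ∈ s, f i = ∑ k : Fin s.card, f (e.symm k).1 := by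
    intro f
    rw [← Finset.sum_coe_sort s f]
    exact (Equiv.sum_comp e.symm (fun i : s => f i.1)).symm
  have htrR : ∀ f : ι → ℝ, ∑ i ∈ s, f i = ∑ k : Fin s.card, f (e.symm k).1 := by
    intro f
    rw [← Finset.sum_coe_sort s f]
    exact (Equiv.sum_comp e.symm (fun i : s => f i.1)).symm
  obtain ⟨N0, F, hF, hmain⟩ := s0Z (T := T) hS (r := s.card) B δ hδ
  let ext : (Fin s.card → ℤ) → (ι → ℤ) := fun u i => if h : i ∈ s then u (e ⟨i, h⟩) else 0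
  have hext : ∀ u k, ext u (e.symm k).1 = u k := by
    intro u k
    simp [ext]
  refine ⟨N0, F.image ext, ?_, ?_⟩
  · intro u hu
    obtain ⟨u', hu', rfl⟩ := Finset.mem_image.1 hu
    have h1 := hF u' hu'
    obtain ⟨k, hk⟩ := Function.ne_iff.1 h1
    exact ⟨(e.symm k).1, (e.symm k).2, by rw [hext]; exact hk⟩
  · intro v0 m hm N hN x hx0 hxS hxB E hE hsm hsum
    rw [htr] at hsm
    rw [htrR] at hsum
    obtain ⟨u, hu, hu0⟩ := hmain v0 (e ⟨m, hm⟩) N hN (fun k => x (e.symm k).1)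
      (fun k => hx0 _ (e.symm k).2) (fun k => hxS _ (e.symm k).2)
      (fun v k => hxB v _ (e.symm k).2) E hE (by simpa using hsm) hsum
    refine ⟨ext u, Finset.mem_image_of_mem _ hu, ?_⟩
    rw [htr]
    simp only [hext]
    exact hu0

theorem exists_pos_le {α : Type} (S : Finset α) (f : α → ℝ) (hf : ∀ a ∈ S, 0 < f a) :
    ∃ c : ℝ, 0 < c ∧ ∀ a ∈ S, c ≤ f a := by
  classical
  induction S using Finset.induction_on with
  | empty => exact ⟨1, one_pos, by simp⟩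
  | insert a S ha ih =>
    obtain ⟨c, hc, h⟩ := ih (fun b hb => hf b (Finset.mem_insert_of_mem hb))
    refine ⟨min c (f a), lt_min hc (hf a (Finset.mem_insert_self _ _)), fun b hb => ?_⟩
    rcases Finset.mem_insert.1 hb with rfl | hb
    · exact min_le_right _ _
    · exact (min_le_left _ _).trans (h b hb)

theorem exists_ge_real {α : Type} (S : Finset α) (f : α → ℝ) :
    ∃ c : ℝ, 0 ≤ c ∧ ∀ a ∈ S, f a ≤ c := by
  classical
  induction S using Finset.induction_on with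
  | empty => exact ⟨0, le_rfl, by simp⟩
  | insert a S ha ih =>
    obtain ⟨c, hc, h⟩ := ih
    refine ⟨max c (f a), hc.trans (le_max_left _ _), fun b hb => ?_⟩
    rcases Finset.mem_insert.1 hb with rfl | hb
    · exact le_max_right _ _
    · exact (h b hb).trans (le_max_left _ _)

theorem nS_unit_v3 (v : SP ℚ T) (h3 : nS v (3 : ℚ) = 1 / 3) (h7 : nS v (7 : ℚ) = 1) (a b : ℤ) :
    nS v ((7 : ℚ) ^ a * 3 ^ b) = (3 : ℝ) ^ (-b) := by
  rw [nS_mul, nS_zpow, nS_zpow, h3, h7, one_zpow, one_mul, one_div, inv_zpow, zpow_neg]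

theorem nS_unit_v7 (v : SP ℚ T) (h7 : nS v (7 : ℚ) = 1 / 7) (h3 : nS v (3 : ℚ) = 1) (a b : ℤ) :
    nS v ((7 : ℚ) ^ a * 3 ^ b) = (7 : ℝ) ^ (-a) := by
  rw [nS_mul, nS_zpow, nS_zpow, h3, h7, one_zpow, mul_one, one_div, inv_zpow, zpow_neg]

theorem nS_unit_vI (a b : ℤ) :
    nS (vI : SP ℚ T) ((7 : ℚ) ^ a * 3 ^ b) = (7 : ℝ) ^ a * 3 ^ b := by
  rw [nS_vI]
  push_cast
  exact abs_of_pos (by positivity)

/-- a bound for the logarithm of the absolute values of `c * 7 ^ a * 3 ^ b` -/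
theorem term_log :
    ∃ B : ℝ, 0 ≤ B ∧ ∀ (v : SP ℚ T) (c : ℤ), c ≠ 0 → ∀ (a b : ℤ) (N : ℕ), |a| ≤ N → |b| ≤ N →
      |Real.log (nS v ((c : ℚ) * ((7 : ℚ) ^ a * 3 ^ b)))| ≤ Real.log |(c : ℝ)| + B * N := by
  let B : ℝ := ∑ v : SP ℚ T, (|Real.log (nS v (7 : ℚ))| + |Real.log (nS v (3 : ℚ))|)
  refine ⟨B, Finset.sum_nonneg fun v _ => by positivity, fun v c hc a b N ha hb => ?_⟩
  have hcq : (c : ℚ) ≠ 0 := by exact_mod_cast hc
  rw [nS_mul, Real.log_mul (nS_pos v hcq).ne' (nS_pos v (unit_ne a b)).ne', unit_log]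
  refine (abs_add_le _ _).trans (add_le_add (int_log c hc v) ?_)
  have h1 : |(a : ℝ)| ≤ N := by exact_mod_cast ha
  have h2 : |(b : ℝ)| ≤ N := by exact_mod_cast hb
  refine (abs_add_le _ _).trans ?_
  rw [abs_mul, abs_mul]
  have h3 : |Real.log (nS v (7 : ℚ))| + |Real.log (nS v (3 : ℚ))| ≤ B :=
    Finset.single_le_sum (f := fun v : SP ℚ T =>
      |Real.log (nS v (7 : ℚ))| + |Real.log (nS v (3 : ℚ))|)
      (fun v _ => by positivity) (Finset.mem_univ v)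
  calc |(a : ℝ)| * |Real.log (nS v (7 : ℚ))| + |(b : ℝ)| * |Real.log (nS v (3 : ℚ))|
      ≤ N * |Real.log (nS v (7 : ℚ))| + N * |Real.log (nS v (3 : ℚ))| := by gcongr
    _ = (|Real.log (nS v (7 : ℚ))| + |Real.log (nS v (3 : ℚ))|) * N := by ring
    _ ≤ B * N := by gcongr

theorem term_logsum (hT : ∀ w : FinitePlace ℚ, w ∉ T → w (7 : ℚ) = 1 ∧ w (3 : ℚ) = 1) (c : ℤ)
    (hc : c ≠ 0) (a b : ℤ) :
    ∑ v, Real.log (nS (T := T) v ((c : ℚ) * ((7 : ℚ) ^ a * 3 ^ b))) ≤ Real.log |(c : ℝ)| := by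
  have hcq : (c : ℚ) ≠ 0 := by exact_mod_cast hc
  have h1 : ∀ v : SP ℚ T, Real.log (nS (T := T) v ((c : ℚ) * ((7 : ℚ) ^ a * 3 ^ b))) =
      Real.log (nS v (c : ℚ)) + Real.log (nS v ((7 : ℚ) ^ a * 3 ^ b)) := fun v => by
    rw [nS_mul, Real.log_mul (nS_pos v hcq).ne' (nS_pos v (unit_ne a b)).ne']
  simp only [h1]
  rw [Finset.sum_add_distrib, unit_logsum hT, add_zero]
  exact int_logsum c hc

theorem term_SInt (hT : ∀ w : FinitePlace ℚ, w ∉ T → w (7 : ℚ) = 1 ∧ w (3 : ℚ) = 1) (c : ℤ)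
    (a b : ℤ) : SInt T ((c : ℚ) * ((7 : ℚ) ^ a * 3 ^ b)) := by
  intro w hw
  rw [map_mul]
  have h1 := w_int_le w c
  have h2 := unit_SInt hT a b w hw
  exact mul_le_one₀ h1 (apply_nonneg _ _) h2

theorem log_le_of_le_two_rpow (c : ℤ) (hc : c ≠ 0) (y : ℝ) (h : |(c : ℝ)| ≤ (2 : ℝ) ^ y) :
    Real.log |(c : ℝ)| ≤ y * Real.log 2 := by
  have h0 : 0 < |(c : ℝ)| := abs_pos.2 (by exact_mod_cast hc)
  have := Real.log_le_log h0 h
  rwa [Real.log_rpow (by norm_num)] at this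

/-- LB: a sum of far apart units with small moving integer coefficients is not much smaller than
each of its terms, at any place -/
theorem lbm (hS : SubY) (hT : ∀ w : FinitePlace ℚ, w ∉ T → w (7 : ℚ) = 1 ∧ w (3 : ℚ) = 1)
    {ι : Type} [DecidableEq ι] (s : Finset ι) :
    ∀ (δ θ : ℝ), 0 < δ → 0 < θ → ∃ η : ℝ, 0 < η ∧ ∃ N0 : ℕ, ∀ N : ℕ, N0 ≤ N →
      ∀ a b C : ι → ℤ, (∀ i ∈ s, |a i| ≤ N ∧ |b i| ≤ N) →
        (∀ i ∈ s, ∀ j ∈ s, |a i - a j| ≤ |b i - b j|) →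
        (∀ i ∈ s, ∀ j ∈ s, i ≠ j → θ * N < |((b i - b j : ℤ) : ℝ)|) →
        (∀ i ∈ s, C i ≠ 0 ∧ |(C i : ℝ)| ≤ (2 : ℝ) ^ (η * N)) →
        ∀ (v : SP ℚ T), ∀ i ∈ s, nS v ((7 : ℚ) ^ a i * 3 ^ b i) * (2 : ℝ) ^ (-δ * N) <
          nS v (∑ j ∈ s, (C j : ℚ) * ((7 : ℚ) ^ a j * 3 ^ b j)) := by
  classical
  obtain ⟨v3, h33, h37, h3I⟩ := exists_v3 hT
  obtain ⟨BB, hBB0, hBB⟩ := term_log (T := T)
  have hl2 : 0 < Real.log 2 := Real.log_pos (by norm_num)
  have hl21 : Real.log 2 < 1 := by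
    have := Real.log_two_lt_d9
    linarith
  induction s using Finset.strongInduction with
  | H s ih =>
  intro δ θ hδ hθ
  -- data for the strict subsets
  have hih : ∀ t : Finset ι, ∃ η : ℝ, 0 < η ∧ ∃ N0 : ℕ, t ⊂ s → ∀ N : ℕ, N0 ≤ N →
      ∀ a b C : ι → ℤ, (∀ i ∈ t, |a i| ≤ N ∧ |b i| ≤ N) →
        (∀ i ∈ t, ∀ j ∈ t, |a i - a j| ≤ |b i - b j|) →
        (∀ i ∈ t, ∀ j ∈ t, i ≠ j → θ / 2 * N < |((b i - b j : ℤ) : ℝ)|) →
        (∀ i ∈ t, C i ≠ 0 ∧ |(C i : ℝ)| ≤ (2 : ℝ) ^ (η * N)) →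
        ∀ (v : SP ℚ T), ∀ i ∈ t, nS v ((7 : ℚ) ^ a i * 3 ^ b i) * (2 : ℝ) ^ (-1 * (N : ℝ)) <
          nS v (∑ j ∈ t, (C j : ℚ) * ((7 : ℚ) ^ a j * 3 ^ b j)) := by
    intro t
    by_cases ht : t ⊂ s
    · obtain ⟨η, hη, N0, h⟩ := ih t ht 1 (θ / 2) one_pos (by linarith)
      exact ⟨η, hη, N0, fun _ => h⟩
    · exact ⟨1, one_pos, 0, fun h => absurd h ht⟩
  choose ηf hηf Nf hNf using hih
  obtain ⟨c1, hc1, hc1'⟩ := exists_pos_le s.powerset ηf (fun t _ => hηf t)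
  -- the Subspace theorem
  set r : ℕ := s.card with hr
  obtain ⟨N1, F, hF, hmain⟩ := s0F (T := T) hS s (BB + 1 + δ) (δ * Real.log 2 / 2) (by positivity)
  obtain ⟨Q, hQ0, hQ⟩ := exists_ge_real F (fun q => ∑ i ∈ s, |(q i : ℝ)|)
  set η : ℝ := min 1 (min (δ / (2 * (r + 1))) (c1 * θ / 2)) with hη
  have hrpos : (0:ℝ) < 2 * (r + 1) := by positivity
  have hη0 : 0 < η := by
    refine lt_min one_pos (lt_min ?_ ?_) <;> positivity
  have hη1 : η ≤ 1 := min_le_left _ _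
  have hη2 : (r + 1) * η ≤ δ / 2 := by
    have : η ≤ δ / (2 * (r + 1)) := (min_le_right _ _).trans (min_le_left _ _)
    rw [le_div_iff₀ hrpos] at this
    linarith
  have hη3 : η ≤ c1 * θ / 2 := (min_le_right _ _).trans (min_le_right _ _)
  obtain ⟨N2, hN2⟩ : ∃ N2 : ℕ, Q ≤ (2 : ℝ) ^ (c1 * θ / 2 * (N2 : ℝ)) := by
    have h2 : (1:ℝ) < (2:ℝ) ^ (c1 * θ / 2) := Real.one_lt_rpow (by norm_num) (by positivity)
    obtain ⟨n, hn⟩ := pow_unbounded_of_one_lt Q h2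
    refine ⟨n, ?_⟩
    rw [Real.rpow_mul (by norm_num), Real.rpow_natCast]
    exact hn.le
  obtain ⟨N3, hN3⟩ : ∃ N3 : ℕ, ((s.powerset.sup Nf : ℕ) : ℝ) / θ ≤ N3 := exists_nat_ge _
  refine ⟨η, hη0, max (max N1 N2) (max N3 1), fun N hN a b C hab hlip hfar hC v i hi => ?_⟩
  have hNN1 : N1 ≤ N := ((le_max_left _ _).trans (le_max_left _ _)).trans hN
  have hNN2 : N2 ≤ N := ((le_max_right _ _).trans (le_max_left _ _)).trans hN
  have hNN3 : N3 ≤ N := ((le_max_left _ _).trans (le_max_right _ _)).trans hN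
  have hNN4 : 1 ≤ N := ((le_max_right _ _).trans (le_max_right _ _)).trans hN
  have hNpos : (0:ℝ) < N := by exact_mod_cast hNN4
  by_contra hcon
  push Not at hcon
  have hCl : ∀ k ∈ s, Real.log |(C k : ℝ)| ≤ η * N * Real.log 2 := fun k hk =>
    log_le_of_le_two_rpow _ (hC k hk).1 _ (hC k hk).2
  have hCiq : ((C i : ℤ) : ℚ) ≠ 0 := by exact_mod_cast (hC i hi).1
  -- apply the Subspace theorem
  obtain ⟨q, hq, hq0⟩ := hmain v i hi N hNN1 (fun k => (C k : ℚ) * ((7 : ℚ) ^ a k * 3 ^ b k))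
    (fun k hk => mul_ne_zero (by exact_mod_cast (hC k hk).1) (unit_ne _ _))
    (fun k hk => term_SInt hT _ _ _)
    (fun v' k hk => by
      have h1 := hBB v' (C k) (hC k hk).1 (a k) (b k) N (hab k hk).1 (hab k hk).2
      have h2 := hCl k hk
      have h3 : η * N * Real.log 2 ≤ 1 * N := by nlinarith [mul_pos hη0 hNpos]
      nlinarith [mul_pos hδ hNpos])
    (δ * N * Real.log 2 + Real.log (nS v ((C i : ℤ) : ℚ)))
    (by
      have h1 := int_log (C i) (hC i hi).1 v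
      have h2 := hCl i hi
      have h3 : η * N * Real.log 2 ≤ 1 * N := by nlinarith [mul_pos hη0 hNpos]
      have h4 : |δ * N * Real.log 2| ≤ δ * N := by
        rw [abs_of_pos (by positivity)]
        nlinarith [mul_pos hδ hNpos]
      refine (abs_add_le _ _).trans ?_
      nlinarith)
    (by
      refine hcon.trans (le_of_eq ?_)
      rw [neg_add, Real.exp_add, Real.exp_neg (Real.log _), Real.exp_log (nS_pos v hCiq),
        nS_mul v ((C i : ℤ) : ℚ) _, Real.rpow_def_of_pos (by norm_num)]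
      have h5 : nS v ((C i : ℤ) : ℚ) ≠ 0 := (nS_pos v hCiq).ne'
      have h6 : Real.log 2 * (-δ * N) = -(δ * N * Real.log 2) := by ring
      rw [h6]
      field_simp)
    (by
      have h1 : ∑ k ∈ s, ∑ v' : SP ℚ T, Real.log (nS (T := T) v' ((C k : ℚ) *
          ((7 : ℚ) ^ a k * 3 ^ b k))) ≤ ∑ k ∈ s, η * N * Real.log 2 :=
        Finset.sum_le_sum fun k hk => (term_logsum hT _ (hC k hk).1 _ _).trans (hCl k hk)
      rw [Finset.sum_const, nsmul_eq_mul, ← hr] at h1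
      have h2 := (abs_le.1 (int_log (C i) (hC i hi).1 v)).1
      have h3 := hCl i hi
      have h4 : (r + 1) * η * (N * Real.log 2) ≤ δ / 2 * (N * Real.log 2) :=
        mul_le_mul_of_nonneg_right hη2 (by positivity)
      nlinarith)
  -- the relation
  set t : Finset ι := s.filter (fun k => q k ≠ 0) with ht
  have htne : t.Nonempty := by
    obtain ⟨k, hk, hqk⟩ := hF q hq
    exact ⟨k, Finset.mem_filter.2 ⟨hk, hqk⟩⟩
  obtain ⟨i1, hi1, hmax⟩ := Finset.exists_max_image t b htne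
  have hi1s : i1 ∈ s := (Finset.mem_filter.1 hi1).1
  have hqi1 : q i1 ≠ 0 := (Finset.mem_filter.1 hi1).2
  set t' : Finset ι := t.erase i1 with ht'
  have hsum : ((q i1 : ℚ) * (C i1 : ℚ)) * ((7 : ℚ) ^ a i1 * 3 ^ b i1) +
      ∑ k ∈ t', ((q k : ℚ) * (C k : ℚ)) * ((7 : ℚ) ^ a k * 3 ^ b k) = 0 := by
    rw [ht', Finset.add_sum_erase _ (fun k => ((q k : ℚ) * (C k : ℚ)) *
      ((7 : ℚ) ^ a k * 3 ^ b k)) hi1, ht, Finset.sum_filter]
    refine Eq.trans (Finset.sum_congr rfl fun k _ => ?_) hq0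
    by_cases h : q k = 0
    · simp [h]
    · simp only [h, ne_eq, not_false_eq_true, if_true]; ring
  have hts' : ∀ k ∈ t', k ∈ s ∧ q k ≠ 0 ∧ k ≠ i1 := by
    intro k hk
    simp only [ht', ht, Finset.mem_erase, Finset.mem_filter] at hk
    exact ⟨hk.2.1, hk.2.2, hk.1⟩
  have hC1 : (q i1 : ℚ) * (C i1 : ℚ) ≠ 0 :=
    mul_ne_zero (by exact_mod_cast hqi1) (by exact_mod_cast (hC i1 hi1s).1)
  rcases t'.eq_empty_or_nonempty with he | hne
  · rw [he, Finset.sum_empty, add_zero] at hsum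
    exact mul_ne_zero hC1 (unit_ne _ _) hsum
  obtain ⟨j, hj, hmin⟩ := Finset.exists_min_image t' b hne
  have hts : t' ⊂ s := by
    refine Finset.ssubset_iff_subset_ne.2 ⟨?_, ?_⟩
    · exact (Finset.erase_subset _ _).trans (Finset.filter_subset _ _)
    · intro h
      rw [← h] at hi1s
      simp [ht'] at hi1s
  have hbj : b j ≤ b i1 := hmax j (Finset.mem_of_mem_erase hj)
  obtain ⟨N', hN'⟩ : ∃ N' : ℕ, b i1 - b j = N' := ⟨(b i1 - b j).toNat, by omega⟩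
  have hfj : θ * N < N' := by
    have h1 := hfar i1 hi1s j (hts' j hj).1 (hts' j hj).2.2.symm
    rw [hN'] at h1
    simpa using h1
  have hN'2 : (N' : ℝ) ≤ 2 * N := by
    have h1 := abs_le.1 (hab i1 hi1s).2
    have h2 := abs_le.1 (hab j (hts' j hj).1).2
    have h3 : (N' : ℤ) ≤ 2 * N := by omega
    exact_mod_cast h3
  have hNf' : Nf t' ≤ N' := by
    have h1 : ((s.powerset.sup Nf : ℕ) : ℝ) ≤ N3 * θ := by
      rwa [div_le_iff₀ hθ] at hN3
    have h2 : (N3 : ℝ) ≤ N := by exact_mod_cast hNN3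
    have h3 : Nf t' ≤ s.powerset.sup Nf :=
      Finset.le_sup (Finset.mem_powerset.2 (hts.1))
    have h4 : ((Nf t' : ℕ) : ℝ) ≤ ((s.powerset.sup Nf : ℕ) : ℝ) := by exact_mod_cast h3
    have h5 : ((Nf t' : ℕ) : ℝ) ≤ N' := by nlinarith
    exact_mod_cast h5
  have hkey := hNf t' hts N' hNf' (fun k => a k - a i1) (fun k => b k - b i1)
    (fun k => q k * C k)
    (by
      intro k hk
      have h1 : b k ≤ b i1 := hmax k (Finset.mem_of_mem_erase hk)
      have h2 : b j ≤ b k := hmin k hk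
      have h3 := hlip k (hts' k hk).1 i1 hi1s
      have h4 : |b k - b i1| ≤ N' := by rw [abs_le]; constructor <;> omega
      exact ⟨h3.trans h4, h4⟩)
    (by
      intro k hk l hl
      have h3 := hlip k (hts' k hk).1 l (hts' l hl).1
      rw [show (a k - a i1) - (a l - a i1) = a k - a l by ring,
        show (b k - b i1) - (b l - b i1) = b k - b l by ring]
      exact h3)
    (by
      intro k hk l hl hkl
      have h3 := hfar k (hts' k hk).1 l (hts' l hl).1 hkl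
      rw [show (b k - b i1) - (b l - b i1) = b k - b l by ring]
      nlinarith)
    (by
      intro k hk
      refine ⟨mul_ne_zero (hts' k hk).2.1 (hC k (hts' k hk).1).1, ?_⟩
      push_cast
      rw [abs_mul]
      have h1 : |(q k : ℝ)| ≤ Q :=
        (Finset.single_le_sum (f := fun i => |(q i : ℝ)|) (fun _ _ => abs_nonneg _)
          (hts' k hk).1).trans (hQ q hq)
      have h2 := (hC k (hts' k hk).1).2
      have h3 : Q ≤ (2 : ℝ) ^ (c1 * θ / 2 * (N : ℝ)) := by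
        refine hN2.trans (Real.rpow_le_rpow_of_exponent_le (by norm_num) ?_)
        have : (N2 : ℝ) ≤ N := by exact_mod_cast hNN2
        gcongr
      calc |(q k : ℝ)| * |(C k : ℝ)| ≤ (2 : ℝ) ^ (c1 * θ / 2 * (N : ℝ)) * (2 : ℝ) ^ (η * N) := by
            gcongr
            exact h1.trans h3
        _ = (2 : ℝ) ^ (c1 * θ / 2 * (N : ℝ) + η * N) := by
            rw [← Real.rpow_add (by norm_num)]
        _ ≤ (2 : ℝ) ^ (ηf t' * N') := by
            apply Real.rpow_le_rpow_of_exponent_le (by norm_num)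
            have h4 : c1 ≤ ηf t' := hc1' t' (Finset.mem_powerset.2 (hts.1))
            have h5 : c1 * (θ * N) ≤ ηf t' * N' :=
              mul_le_mul h4 hfj.le (by positivity) (hηf t').le
            nlinarith)
    v3 j hj
  rw [nS_unit_v3 v3 h33 h37] at hkey
  have hdiv : ∑ k ∈ t', ((q k * C k : ℤ) : ℚ) * ((7 : ℚ) ^ (a k - a i1) * 3 ^ (b k - b i1)) =
      -((q i1 * C i1 : ℤ) : ℚ) := by
    have h1 : ∀ k, ((q k * C k : ℤ) : ℚ) * ((7 : ℚ) ^ (a k - a i1) * 3 ^ (b k - b i1)) =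
        (((q k : ℚ) * (C k : ℚ)) * ((7 : ℚ) ^ a k * 3 ^ b k)) / ((7 : ℚ) ^ a i1 * 3 ^ b i1) := by
      intro k
      rw [zpow_sub₀ (by norm_num), zpow_sub₀ (by norm_num)]
      push_cast
      field_simp
    rw [Finset.sum_congr rfl (fun k _ => h1 k), ← Finset.sum_div,
      div_eq_iff (unit_ne (a i1) (b i1))]
    push_cast
    linarith
  rw [hdiv, nS_neg] at hkey
  have h6 := h3I (q i1 * C i1)
  have h7 : -(b j - b i1) = (N' : ℤ) := by omega
  rw [h7, zpow_natCast] at hkey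
  have h8 : (1 : ℝ) ≤ (3 : ℝ) ^ N' * (2 : ℝ) ^ (-1 * (N' : ℝ)) := by
    rw [neg_one_mul, Real.rpow_neg (by norm_num), Real.rpow_natCast, ← div_eq_mul_inv,
      ← div_pow]
    exact one_le_pow₀ (by norm_num)
  linarith

end Pool.Agent.Helper42.TT
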