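import Pool.Agent.Helper42.TT.DIR

/-!
# MM: an integer 3-adically close to a sum of few units is a partial sum (MP_9d5c58_nt)
-/

set_option autoImplicit false

open NumberField Pool.Agent.Helper92.Ru Pool.Agent.Helper17.Rg

namespace Pool.Agent.Helper42.TT

variable {T : Finset (FinitePlace ℚ)}

/-- the unit `3 ^ k / 7 ^ J k` -/
noncomputable def Y (J : ℕ → ℕ) (k : ℕ) : ℚ := (7 : ℚ) ^ (-(J k : ℤ)) * 3 ^ (k : ℤ)

theorem Y_merge (J : ℕ → ℕ) (k k' : ℕ) (hk : k ≤ k') (hJ : J k ≤ J k') :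
    7 ^ (J k' - J k) * Y J k' = 3 ^ (k' - k) * Y J k := by
  unfold Y
  obtain ⟨g, rfl⟩ := Nat.exists_eq_add_of_le hk
  obtain ⟨h, hh⟩ := Nat.exists_eq_add_of_le hJ
  rw [hh]
  simp only [add_tsub_cancel_left]
  push_cast
  rw [neg_add, zpow_add₀ (by norm_num), zpow_add₀ (by norm_num), zpow_neg 7 (h : ℤ),
    zpow_natCast, zpow_natCast 3 g]
  field_simp

theorem merge_in (J : ℕ → ℕ) (C : ℕ → ℤ) (k k' : ℕ) (hk : k < k') (hJ : J k ≤ J k')
    (A : Finset ℕ) (hkA : k ∈ A) (hk'A : k' ∉ A) :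
    ∑ l ∈ A, ((if l = k then 7 ^ (J k' - J k) * C k + 3 ^ (k' - k) * C k'
      else 7 ^ (J k' - J k) * C l : ℤ) : ℚ) * Y J l =
      7 ^ (J k' - J k) * ∑ l ∈ insert k' A, (C l : ℚ) * Y J l := by
  rw [Finset.sum_insert hk'A, ← Finset.add_sum_erase A _ hkA, ← Finset.add_sum_erase A _ hkA]
  have h1 : ∑ l ∈ A.erase k, ((if l = k then 7 ^ (J k' - J k) * C k + 3 ^ (k' - k) * C k'
      else 7 ^ (J k' - J k) * C l : ℤ) : ℚ) * Y J l =
      7 ^ (J k' - J k) * ∑ l ∈ A.erase k, (C l : ℚ) * Y J l := by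
    rw [Finset.mul_sum]
    refine Finset.sum_congr rfl fun l hl => ?_
    rw [if_neg (Finset.ne_of_mem_erase hl)]
    push_cast
    ring
  rw [h1, if_pos rfl]
  push_cast
  have h2 := Y_merge J k k' hk.le hJ
  have h3 : (7 : ℚ) ^ (J k' - J k) * ((C k' : ℚ) * Y J k' + ((C k : ℚ) * Y J k +
      ∑ l ∈ A.erase k, (C l : ℚ) * Y J l)) = (C k' : ℚ) * (7 ^ (J k' - J k) * Y J k') +
      7 ^ (J k' - J k) * ((C k : ℚ) * Y J k + ∑ l ∈ A.erase k, (C l : ℚ) * Y J l) := by ring
  rw [h3, h2]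
  ring

theorem merge_out (J : ℕ → ℕ) (C : ℕ → ℤ) (k k' : ℕ) (A : Finset ℕ) (hkA : k ∉ A) :
    ∑ l ∈ A, ((if l = k then 7 ^ (J k' - J k) * C k + 3 ^ (k' - k) * C k'
      else 7 ^ (J k' - J k) * C l : ℤ) : ℚ) * Y J l =
      7 ^ (J k' - J k) * ∑ l ∈ A, (C l : ℚ) * Y J l := by
  rw [Finset.mul_sum]
  refine Finset.sum_congr rfl fun l hl => ?_
  have hlk : l ≠ k := fun h => hkA (h ▸ hl)
  rw [if_neg hlk]
  push_cast
  ring

theorem mmE (hS : SubY) (hT : ∀ w : FinitePlace ℚ, w ∉ T → w (7 : ℚ) = 1 ∧ w (3 : ℚ) = 1)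
    (v3 : SP ℚ T) (h33 : nS v3 (3 : ℚ) = 1 / 3) (h37 : nS v3 (7 : ℚ) = 1)
    (h3I : ∀ n : ℤ, nS v3 (n : ℚ) ≤ 1) (δ : ℝ) (hδ : 0 < δ) (r : ℕ) :
    ∃ η : ℝ, 0 < η ∧ ∃ N0 : ℕ, ∀ N : ℕ, N0 ≤ N → ∀ (s : Finset ℕ) (J : ℕ → ℕ) (C : ℕ → ℤ)
      (D u : ℤ), s.card = r → (∀ k ∈ s, k ≤ N) → (∀ k l, k ≤ l → J k ≤ J l ∧ J l ≤ J k + (l - k)) →
      J 0 = 0 → (∀ k ∈ s, |(C k : ℝ)| ≤ (2 : ℝ) ^ (η * N)) → D ≠ 0 →
      |(D : ℝ)| ≤ (2 : ℝ) ^ (η * N) → |(u : ℝ)| ≤ (3 : ℝ) ^ ((1 - δ) * N) →
      nS v3 (-((D * u : ℤ) : ℚ) + ∑ k ∈ s, (C k : ℚ) * Y J k) ≤ (3 : ℝ) ^ (-(N : ℤ)) →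
      ∃ κ : ℕ, ((D * u : ℤ) : ℚ) = ∑ k ∈ s.filter (fun k => k < κ), (C k : ℚ) * Y J k := by
  classical
  induction r with
  | zero =>
    obtain ⟨η, hη, N0, h⟩ := dir hS hT v3 h33 h37 h3I 0 δ 1 hδ one_pos
    refine ⟨η, hη, N0, fun N hN s J C D u hs _ _ _ _ hD hDb hub hsm => ⟨0, ?_⟩⟩
    rw [Finset.card_eq_zero] at hs
    subst hs
    by_cases hu : u = 0
    · simp [hu]
    · obtain ⟨κ, hκ⟩ := h N hN Fin.elim0 Fin.elim0 Fin.elim0 D u (fun i => i.elim0)
        (fun i => i.elim0) (fun i => i.elim0) (fun i => i.elim0) hD hDb hu hub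
        (by simpa using hsm)
      rw [hκ]
      simp
  | succ r ih =>
    obtain ⟨η', hη', N1, hind⟩ := ih
    have hθ : 0 < η' / 12 := by positivity
    obtain ⟨ηd, hηd, N2, hdir⟩ := dir hS hT v3 h33 h37 h3I (r + 1) δ (η' / 12) hδ hθ
    obtain ⟨N3, hN3⟩ : ∃ N3 : ℕ, 4 / η' ≤ N3 := exists_nat_ge _
    refine ⟨min ηd (η' / 4), lt_min hηd (by positivity), max N1 (max N2 N3),
      fun N hN s J C D u hs hsN hJ hJ0 hC hD hDb hub hsm => ?_⟩
    have hNN1 : N1 ≤ N := (le_max_left _ _).trans hN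
    have hNN2 : N2 ≤ N := ((le_max_left _ _).trans (le_max_right _ _)).trans hN
    have hNN3 : N3 ≤ N := ((le_max_right _ _).trans (le_max_right _ _)).trans hN
    have hN0 : (0:ℝ) ≤ N := Nat.cast_nonneg N
    have hN4 : 1 ≤ η' / 4 * N := by
      have h1 : 4 / η' ≤ N := hN3.trans (by exact_mod_cast hNN3)
      rw [div_le_iff₀ hη'] at h1
      linarith
    have hle1 : (2 : ℝ) ^ (min ηd (η' / 4) * N) ≤ (2 : ℝ) ^ (η' / 4 * N) :=
      Real.rpow_le_rpow_of_exponent_le (by norm_num)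
        (mul_le_mul_of_nonneg_right (min_le_right _ _) hN0)
    have hle2 : (2 : ℝ) ^ (min ηd (η' / 4) * N) ≤ (2 : ℝ) ^ (ηd * N) :=
      Real.rpow_le_rpow_of_exponent_le (by norm_num)
        (mul_le_mul_of_nonneg_right (min_le_left _ _) hN0)
    have hle3 : (2 : ℝ) ^ (η' / 4 * N) ≤ (2 : ℝ) ^ (η' * N) :=
      Real.rpow_le_rpow_of_exponent_le (by norm_num) (by nlinarith)
    by_cases hz : ∃ k ∈ s, C k = 0
    · -- drop a zero coefficient
      obtain ⟨k, hk, hCk⟩ := hz
      have hsum : ∀ A : Finset ℕ, ∑ l ∈ A.erase k, (C l : ℚ) * Y J l = ∑ l ∈ A, (C l : ℚ) * Y J l := by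
        intro A
        by_cases hkA : k ∈ A
        · rw [← Finset.add_sum_erase A _ hkA, hCk]
          simp
        · rw [Finset.erase_eq_of_notMem hkA]
      obtain ⟨κ, hκ⟩ := hind N hNN1 (s.erase k) J C D u
        (by rw [Finset.card_erase_of_mem hk, hs]; rfl)
        (fun l hl => hsN l (Finset.mem_of_mem_erase hl)) hJ hJ0
        (fun l hl => (hC l (Finset.mem_of_mem_erase hl)).trans (hle1.trans hle3)) hD
        (hDb.trans (hle1.trans hle3)) hub (by rw [hsum]; exact hsm)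
      refine ⟨κ, ?_⟩
      rw [hκ, Finset.filter_erase, hsum]
    push Not at hz
    by_cases hclose : ∃ k ∈ s, ∃ k' ∈ s, k < k' ∧ ((k' - k : ℕ) : ℝ) ≤ η' / 12 * N
    · -- merge two neighbours
      obtain ⟨k, hk, k0, hk0, hkk0, hg0⟩ := hclose
      have hne : (s.filter (fun l => k < l)).Nonempty := ⟨k0, Finset.mem_filter.2 ⟨hk0, hkk0⟩⟩
      obtain ⟨k', hk', hk'min⟩ : ∃ k' ∈ s.filter (fun l => k < l),
          ∀ l ∈ s.filter (fun l => k < l), k' ≤ l := by
        refine ⟨_, Finset.min'_mem _ hne, fun l hl => Finset.min'_le _ _ hl⟩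
      obtain ⟨hk's, hkk'⟩ := Finset.mem_filter.1 hk'
      have hadj : ∀ l ∈ s, l ≤ k ∨ k' ≤ l := by
        intro l hl
        by_cases h : k < l
        · exact Or.inr (hk'min l (Finset.mem_filter.2 ⟨hl, h⟩))
        · exact Or.inl (not_lt.1 h)
      have hg : ((k' - k : ℕ) : ℝ) ≤ η' / 12 * N := by
        refine le_trans ?_ hg0
        have : k' ≤ k0 := hk'min k0 (Finset.mem_filter.2 ⟨hk0, hkk0⟩)
        exact_mod_cast Nat.sub_le_sub_right this k
      set h : ℕ := J k' - J k with hh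
      have hhg : h ≤ k' - k := by
        have := (hJ k k' hkk'.le).2
        omega
      have h78 : ∀ e : ℕ, e ≤ k' - k → (7 : ℝ) ^ e ≤ (2 : ℝ) ^ (η' / 4 * N) := by
        intro e he
        calc (7 : ℝ) ^ e ≤ 8 ^ e := pow_le_pow_left₀ (by norm_num) (by norm_num) e
          _ = (2 : ℝ) ^ ((3 : ℝ) * e) := by
              rw [show (8:ℝ) = 2 ^ 3 by norm_num, ← pow_mul, ← Real.rpow_natCast]
              push_cast
              ring_nf
          _ ≤ (2 : ℝ) ^ (η' / 4 * N) := by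
              apply Real.rpow_le_rpow_of_exponent_le (by norm_num)
              have : (e : ℝ) ≤ ((k' - k : ℕ) : ℝ) := by exact_mod_cast he
              linarith
      have h38 : (3 : ℝ) ^ (k' - k) ≤ (2 : ℝ) ^ (η' / 4 * N) :=
        (pow_le_pow_left₀ (by norm_num) (by norm_num) _).trans (h78 _ le_rfl)
      have h7h : (7 : ℝ) ^ h ≤ (2 : ℝ) ^ (η' / 4 * N) := h78 _ hhg
      have hprod : ∀ c : ℤ, |(c : ℝ)| ≤ (2 : ℝ) ^ (min ηd (η' / 4) * N) → ∀ z : ℝ, 0 ≤ z →
          z ≤ (2 : ℝ) ^ (η' / 4 * N) → z * |(c : ℝ)| ≤ (2 : ℝ) ^ (η' / 2 * N) := by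
        intro c hc z hz0 hz1
        calc z * |(c : ℝ)| ≤ (2 : ℝ) ^ (η' / 4 * N) * (2 : ℝ) ^ (η' / 4 * N) :=
              mul_le_mul hz1 (hc.trans hle1) (abs_nonneg _) (by positivity)
          _ = (2 : ℝ) ^ (η' / 2 * N) := by
              rw [← Real.rpow_add (by norm_num)]
              congr 1
              ring
      have h2half : 2 * (2 : ℝ) ^ (η' / 2 * N) ≤ (2 : ℝ) ^ (η' * N) := by
        calc 2 * (2 : ℝ) ^ (η' / 2 * N) = (2 : ℝ) ^ (1 + η' / 2 * N) := by
              rw [Real.rpow_add (by norm_num), Real.rpow_one]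
          _ ≤ (2 : ℝ) ^ (η' * N) := by
              apply Real.rpow_le_rpow_of_exponent_le (by norm_num)
              linarith
      have hhalf : (2 : ℝ) ^ (η' / 2 * N) ≤ (2 : ℝ) ^ (η' * N) := by
        have : (0:ℝ) < (2 : ℝ) ^ (η' / 2 * N) := by positivity
        linarith
      set C' : ℕ → ℤ := fun l => if l = k then 7 ^ (J k' - J k) * C k + 3 ^ (k' - k) * C k'
        else 7 ^ (J k' - J k) * C l with hC'
      have hJk : J k ≤ J k' := (hJ k k' hkk'.le).1
      have hkek' : k ∈ s.erase k' := Finset.mem_erase.2 ⟨hkk'.ne, hk⟩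
      have hsumall : ∑ l ∈ s.erase k', (C' l : ℚ) * Y J l = 7 ^ h * ∑ l ∈ s, (C l : ℚ) * Y J l := by
        have h1 := merge_in J C k k' hkk' hJk (s.erase k') hkek' (Finset.notMem_erase _ _)
        rw [Finset.insert_erase hk's] at h1
        exact h1
      obtain ⟨κ, hκ⟩ := hind N hNN1 (s.erase k') J C' (7 ^ h * D) u
        (by rw [Finset.card_erase_of_mem hk's, hs]; rfl)
        (fun l hl => hsN l (Finset.mem_of_mem_erase hl)) hJ hJ0
        (fun l hl => by
          have hls := Finset.mem_of_mem_erase hl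
          simp only [hC']
          split_ifs with hlk
          · push_cast
            refine (abs_add_le _ _).trans ?_
            rw [abs_mul, abs_mul, abs_of_pos (by positivity : (0:ℝ) < 7 ^ (J k' - J k)),
              abs_of_pos (by positivity : (0:ℝ) < 3 ^ (k' - k))]
            have e1 := hprod (C k) (hC k hk) _ (by positivity) h7h
            have e2 := hprod (C k') (hC k' hk's) _ (by positivity) h38
            linarith
          · push_cast
            rw [abs_mul, abs_of_pos (by positivity : (0:ℝ) < 7 ^ (J k' - J k))]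
            exact (hprod (C l) (hC l hls) _ (by positivity) h7h).trans hhalf)
        (mul_ne_zero (by positivity) hD)
        (by
          push_cast
          rw [abs_mul, abs_of_pos (by positivity : (0:ℝ) < 7 ^ h)]
          exact (hprod D hDb _ (by positivity) h7h).trans hhalf)
        hub
        (by
          rw [hsumall]
          have h1 : -((7 ^ h * D * u : ℤ) : ℚ) + 7 ^ h * ∑ l ∈ s, (C l : ℚ) * Y J l =
              7 ^ h * (-((D * u : ℤ) : ℚ) + ∑ l ∈ s, (C l : ℚ) * Y J l) := by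
            push_cast
            ring
          rw [h1, nS_mul, nS_pow, h37, one_pow, one_mul]
          exact hsm)
      have h7q : (7 : ℚ) ^ h ≠ 0 := by positivity
      by_cases hkκ : k < κ
      · refine ⟨max κ (k' + 1), ?_⟩
        apply mul_left_cancel₀ h7q
        have hset : s.filter (fun l => l < max κ (k' + 1)) =
            insert k' ((s.erase k').filter (fun l => l < κ)) := by
          ext l
          simp only [Finset.mem_filter, Finset.mem_insert, Finset.mem_erase, lt_max_iff]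
          constructor
          · rintro ⟨hl, h1⟩
            by_cases hlk' : l = k'
            · exact Or.inl hlk'
            · right
              refine ⟨⟨hlk', hl⟩, ?_⟩
              rcases h1 with h1 | h1
              · exact h1
              · rcases hadj l hl with h2 | h2
                · omega
                · omega
          · rintro (rfl | ⟨⟨h1, h2⟩, h3⟩)
            · exact ⟨hk's, Or.inr (Nat.lt_succ_self _)⟩
            · exact ⟨h2, Or.inl h3⟩
        rw [hset, ← merge_in J C k k' hkk' hJk ((s.erase k').filter (fun l => l < κ))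
          (Finset.mem_filter.2 ⟨hkek', hkκ⟩) (by simp)]
        rw [← hκ]
        push_cast
        ring
      · refine ⟨κ, ?_⟩
        apply mul_left_cancel₀ h7q
        have hset : s.filter (fun l => l < κ) = (s.erase k').filter (fun l => l < κ) := by
          ext l
          simp only [Finset.mem_filter, Finset.mem_erase]
          constructor
          · rintro ⟨h1, h2⟩
            exact ⟨⟨by omega, h1⟩, h2⟩
          · rintro ⟨⟨_, h1⟩, h2⟩
            exact ⟨h1, h2⟩
        rw [hset, ← merge_out J C k k' ((s.erase k').filter (fun l => l < κ))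
          (by simp only [Finset.mem_filter, not_and]; intro _; exact hkκ)]
        rw [← hκ]
        push_cast
        ring
    -- the direct case
    push Not at hclose
    by_cases hu : u = 0
    · exact ⟨0, by simp [hu]⟩
    let e := s.equivFinOfCardEq hs
    have htr : ∀ f : ℕ → ℚ, ∑ i ∈ s, f i = ∑ k : Fin (r + 1), f (e.symm k).1 := by
      intro f
      rw [← Finset.sum_coe_sort s f]
      exact (Equiv.sum_comp e.symm (fun i : s => f i.1)).symm
    have hJle : ∀ k, J k ≤ k := by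
      intro k
      have := (hJ 0 k (Nat.zero_le _)).2
      omega
    obtain ⟨κ, hκ⟩ := hdir N hNN2 (fun i => -(J (e.symm i).1 : ℤ)) (fun i => ((e.symm i).1 : ℤ))
      (fun i => C (e.symm i).1) D u
      (fun i => by
        have h1 := hsN _ (e.symm i).2
        have h2 := hJle (e.symm i).1
        constructor
        · rw [abs_neg, abs_of_nonneg (by positivity)]
          exact_mod_cast h2.trans h1
        · rw [abs_of_nonneg (by positivity)]
          exact_mod_cast h1)
      (fun i j => by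
        rcases le_total (e.symm i).1 (e.symm j).1 with h1 | h1
        · have h2 := hJ _ _ h1
          rw [abs_le]
          have h3 : |(((e.symm i).1 : ℕ) : ℤ) - (((e.symm j).1 : ℕ) : ℤ)| =
            (((e.symm j).1 : ℕ) : ℤ) - (((e.symm i).1 : ℕ) : ℤ) := by
            rw [abs_of_nonpos (by omega)]; ring
          rw [h3]
          constructor <;> omega
        · have h2 := hJ _ _ h1
          rw [abs_le]
          have h3 : |(((e.symm i).1 : ℕ) : ℤ) - (((e.symm j).1 : ℕ) : ℤ)| =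
            (((e.symm i).1 : ℕ) : ℤ) - (((e.symm j).1 : ℕ) : ℤ) := by
            rw [abs_of_nonneg (by omega)]
          rw [h3]
          constructor <;> omega)
      (fun i j hij => by
        have hne : (e.symm i).1 ≠ (e.symm j).1 := by
          intro h
          exact hij (e.symm.injective (Subtype.ext h))
        rcases lt_or_gt_of_ne hne with h1 | h1
        · have h2 := hclose _ (e.symm i).2 _ (e.symm j).2 h1
          push_cast [Nat.cast_sub h1.le] at h2 ⊢
          rw [abs_sub_comm, abs_of_pos (by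
            have : (((e.symm i).1 : ℕ) : ℝ) < (((e.symm j).1 : ℕ) : ℝ) := by exact_mod_cast h1
            linarith)]
          exact h2
        · have h2 := hclose _ (e.symm j).2 _ (e.symm i).2 h1
          push_cast [Nat.cast_sub h1.le] at h2 ⊢
          rw [abs_of_pos (by
            have : (((e.symm j).1 : ℕ) : ℝ) < (((e.symm i).1 : ℕ) : ℝ) := by exact_mod_cast h1
            linarith)]
          exact h2)
      (fun i => ⟨hz _ (e.symm i).2, (hC _ (e.symm i).2).trans hle2⟩) hD (hDb.trans hle2) hu hub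
      (by
        rw [htr] at hsm
        exact hsm)
    refine ⟨⌈κ⌉₊, ?_⟩
    rw [hκ, Finset.sum_filter, Finset.sum_filter, htr]
    refine Finset.sum_congr rfl fun i _ => ?_
    have h1 : ((((e.symm i).1 : ℕ) : ℤ) : ℝ) < κ ↔ (e.symm i).1 < ⌈κ⌉₊ := by
      rw [Nat.lt_ceil]
      push_cast
      rfl
    by_cases h2 : (e.symm i).1 < ⌈κ⌉₊
    · rw [if_pos (h1.2 h2), if_pos h2]
      rfl
    · rw [if_neg (fun h => h2 (h1.1 h)), if_neg h2]

end Pool.Agent.Helper42.TT
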