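import Mathlib

/-!
# Periodic branch words and the map of MP_9d5c58_nt
-/

set_option autoImplicit false

namespace Pool.Agent.Helper42.TT

/-- the map of the problem -/
def Tm (x : ℤ) : ℤ :=
  if x % 3 = 0 then 2 * x else if x % 3 = 1 then (7 * x + 2) / 3 else (x - 2) / 3

/-- `u_t = -(2 T^t x + 1)` -/
def U (x : ℤ) (t : ℕ) : ℤ := -(2 * Tm^[t] x + 1)

/-- the branch at time `t`: `true` for `(7 x + 2) / 3` -/
def w (x : ℤ) (t : ℕ) : Bool := decide (Tm^[t] x % 3 = 1)

theorem U_add (x : ℤ) (s t : ℕ) : U (Tm^[s] x) t = U x (t + s) := by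
  unfold U
  rw [← Function.iterate_add_apply]

theorem U_ne (x : ℤ) (t : ℕ) : U x t ≠ 0 := by
  unfold U
  omega

theorem Tm_A (x : ℤ) (h : x % 3 = 1) : 3 * Tm x = 7 * x + 2 := by
  unfold Tm
  rw [if_neg (by omega), if_pos h]
  omega

theorem Tm_B (x : ℤ) (h : x % 3 = 2) : 3 * Tm x = x - 2 := by
  unfold Tm
  rw [if_neg (by omega), if_neg (by omega)]
  omega

theorem U_A (x : ℤ) (t : ℕ) (h : Tm^[t] x % 3 = 1) : 3 * U x (t + 1) = 7 * U x t := by
  unfold U
  rw [Function.iterate_succ_apply']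
  have := Tm_A _ h
  omega

theorem U_B (x : ℤ) (t : ℕ) (h : Tm^[t] x % 3 = 2) : 3 * U x (t + 1) = U x t + 2 := by
  unfold U
  rw [Function.iterate_succ_apply']
  have := Tm_B _ h
  omega

/-- the step in terms of the branch -/
theorem U_step (x : ℤ) (t : ℕ) (h : ¬ (3 : ℤ) ∣ Tm^[t] x) :
    3 * U x (t + 1) = if w x t then 7 * U x t else U x t + 2 := by
  unfold w
  by_cases h1 : Tm^[t] x % 3 = 1
  · simp only [h1, decide_true, if_true]
    exact U_A x t h1
  · have h2 : Tm^[t] x % 3 = 2 := by omega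
    simp only [h1, decide_false]
    exact U_B x t h2

/-- numerators -/
def bn (ε : ℕ → Bool) : ℕ → ℤ
  | 0 => 0
  | n + 1 => if ε n then 7 * bn ε n else bn ε n + 2 * 3 ^ n

/-- number of branches `true` among the first `n` -/
def jn (ε : ℕ → Bool) : ℕ → ℕ
  | 0 => 0
  | n + 1 => jn ε n + if ε n then 1 else 0

/-- shifted word -/
def sh (ε : ℕ → Bool) (s : ℕ) : ℕ → Bool := fun i => ε (i + s)

theorem sh_sh (ε : ℕ → Bool) (s t : ℕ) : sh (sh ε s) t = sh ε (s + t) := by
  funext i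
  unfold sh
  congr 1
  omega

theorem jn_le (ε : ℕ → Bool) (n : ℕ) : jn ε n ≤ n := by
  induction n with
  | zero => simp [jn]
  | succ n ih =>
    simp only [jn]
    split_ifs <;> omega

theorem jn_front (ε : ℕ → Bool) (n : ℕ) :
    jn ε (n + 1) = jn (sh ε 1) n + if ε 0 then 1 else 0 := by
  induction n with
  | zero => simp [jn]
  | succ n ih =>
    have h1 : jn ε (n + 1 + 1) = jn ε (n + 1) + if ε (n + 1) then 1 else 0 := rfl
    have h2 : jn (sh ε 1) (n + 1) = jn (sh ε 1) n + if ε (n + 1) then 1 else 0 := rfl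
    rw [h1, h2, ih]
    omega

theorem bn_front (ε : ℕ → Bool) (n : ℕ) :
    bn ε (n + 1) = 3 * bn (sh ε 1) n + if ε 0 then 0 else 2 * 7 ^ jn (sh ε 1) n := by
  induction n with
  | zero =>
    simp only [bn, jn]
    split_ifs <;> norm_num
  | succ n ih =>
    have h1 : bn ε (n + 1 + 1) = if ε (n + 1) then 7 * bn ε (n + 1)
        else bn ε (n + 1) + 2 * 3 ^ (n + 1) := rfl
    have h2 : bn (sh ε 1) (n + 1) = if ε (n + 1) then 7 * bn (sh ε 1) n
        else bn (sh ε 1) n + 2 * 3 ^ n := rfl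
    have h3 : jn (sh ε 1) (n + 1) = jn (sh ε 1) n + if ε (n + 1) then 1 else 0 := rfl
    rw [h1, h2, h3, ih]
    split_ifs <;> ring

theorem bn_nonneg (ε : ℕ → Bool) (n : ℕ) : 0 ≤ bn ε n := by
  induction n with
  | zero => simp [bn]
  | succ n ih =>
    simp only [bn]
    split_ifs <;> positivity

theorem bn_le (ε : ℕ → Bool) (n : ℕ) : bn ε n ≤ 7 ^ n := by
  induction n with
  | zero => simp [bn]
  | succ n ih =>
    simp only [bn]
    have h1 : (3 : ℤ) ^ n ≤ 7 ^ n := pow_le_pow_left₀ (by norm_num) (by norm_num) n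
    have h2 : (0 : ℤ) < 7 ^ n := by positivity
    rw [pow_succ]
    split_ifs <;> linarith

/-- the denominator `3 ^ p - 7 ^ j` -/
def Dl (ε : ℕ → Bool) (p : ℕ) : ℤ := 3 ^ p - 7 ^ jn ε p

theorem Dl_mod (ε : ℕ → Bool) (p : ℕ) (hp : 1 ≤ p) : ¬ (3 : ℤ) ∣ Dl ε p := by
  unfold Dl
  obtain ⟨q, rfl⟩ := Nat.exists_eq_add_of_le hp
  intro h
  have h1 : (3 : ℤ) ∣ 3 ^ (1 + q) := dvd_pow_self 3 (by omega)
  have h2 : (3 : ℤ) ∣ 7 ^ jn ε (1 + q) := by
    have := dvd_sub h1 h
    simpa using this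
  have h3 : (3 : ℤ) ∣ 7 := Int.Prime.dvd_pow' (by norm_num) h2
  omega

theorem Dl_ne (ε : ℕ → Bool) (p : ℕ) (hp : 1 ≤ p) : Dl ε p ≠ 0 := by
  intro h
  exact Dl_mod ε p hp (h ▸ dvd_zero 3)

theorem Dl_le (ε : ℕ → Bool) (p : ℕ) : |Dl ε p| ≤ 7 ^ p := by
  unfold Dl
  have h1 : (3 : ℤ) ^ p ≤ 7 ^ p := pow_le_pow_left₀ (by norm_num) (by norm_num) p
  have h2 : (7 : ℤ) ^ jn ε p ≤ 7 ^ p := pow_le_pow_right₀ (by norm_num) (jn_le ε p)
  have h3 : (0 : ℤ) < 3 ^ p := by positivity
  have h4 : (0 : ℤ) < 7 ^ jn ε p := by positivity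
  rw [abs_le]
  constructor <;> linarith

section periodic

variable (ε : ℕ → Bool) (p : ℕ) (hε : ∀ i, ε (i + p) = ε i)

include hε

theorem sh_per (s : ℕ) : sh ε (s + p) = sh ε s := by
  funext i
  unfold sh
  rw [← hε (i + s)]
  congr 1
  omega

theorem jn_shift (s : ℕ) : jn (sh ε s) p = jn ε p := by
  induction s with
  | zero => rfl
  | succ s ih =>
    have h1 : jn (sh ε s) (p + 1) = jn (sh ε s) p + if ε (p + s) then 1 else 0 := rfl
    have h2 := jn_front (sh ε s) p
    rw [sh_sh] at h2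
    have h3 : sh ε s 0 = ε (p + s) := by
      unfold sh
      rw [← hε (0 + s)]
      congr 1
      omega
    rw [h3] at h2
    rw [h1] at h2
    rw [← ih]
    omega

theorem Dl_shift (s : ℕ) : Dl (sh ε s) p = Dl ε p := by
  unfold Dl
  rw [jn_shift ε p hε]

theorem bn_shift (s : ℕ) : 3 * bn (sh ε (s + 1)) p =
    if ε s then 7 * bn (sh ε s) p else bn (sh ε s) p + 2 * Dl ε p := by
  have h1 : bn (sh ε s) (p + 1) = if ε (p + s) then 7 * bn (sh ε s) p
      else bn (sh ε s) p + 2 * 3 ^ p := rfl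
  have h2 := bn_front (sh ε s) p
  rw [sh_sh, jn_shift ε p hε] at h2
  have h3 : sh ε s 0 = ε s := by unfold sh; rw [zero_add]
  have h4 : ε (p + s) = ε s := by rw [add_comm, hε]
  rw [h3] at h2
  rw [h1, h4] at h2
  unfold Dl
  split_ifs at h2 ⊢ <;> linarith

/-- an integer on a periodic rational orbit is a periodic point of `T` -/
theorem cycle (hp : 1 ≤ p) (y : ℤ) (s : ℕ) (h0 : Dl ε p * U y 0 = bn (sh ε s) p) :
    Tm^[p] y = y := by
  have h : ∀ i, Dl ε p * U y i = bn (sh ε (s + i)) p := by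
    intro i
    induction i with
    | zero => exact h0
    | succ i ih =>
      have h1 := bn_shift ε p hε (s + i)
      rw [← ih] at h1
      have hD := Dl_mod ε p hp
      have hD0 := Dl_ne ε p hp
      have hpr : Prime (3 : ℤ) := Int.prime_three
      rw [← add_assoc]
      by_cases hb : ε (s + i) = true
      · rw [if_pos hb] at h1
        have h2 : (3 : ℤ) ∣ Dl ε p * (7 * U y i) := ⟨_, by linarith⟩
        have h3 : (3 : ℤ) ∣ 7 * U y i := (hpr.dvd_or_dvd h2).resolve_left hD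
        have h4 : Tm^[i] y % 3 = 1 := by
          unfold U at h3
          omega
        have h5 := U_A y i h4
        have h6 : 3 * (Dl ε p * U y (i + 1)) = 3 * bn (sh ε (s + i + 1)) p := by
          rw [h1]
          linear_combination (Dl ε p) * h5
        linarith
      · rw [if_neg hb] at h1
        have h2 : (3 : ℤ) ∣ Dl ε p * (U y i + 2) := ⟨_, by linarith⟩
        have h3 : (3 : ℤ) ∣ U y i + 2 := (hpr.dvd_or_dvd h2).resolve_left hD
        have h4 : Tm^[i] y % 3 = 2 := by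
          unfold U at h3
          omega
        have h5 := U_B y i h4
        have h6 : 3 * (Dl ε p * U y (i + 1)) = 3 * bn (sh ε (s + i + 1)) p := by
          rw [h1]
          linear_combination (Dl ε p) * h5
        linarith
  have h1 := h p
  rw [sh_per ε p hε, ← h0] at h1
  have h2 : U y p = U y 0 := mul_left_cancel₀ (Dl_ne ε p hp) h1
  unfold U at h2
  simp only [Function.iterate_zero, id_eq] at h2
  omega

end periodic

end Pool.Agent.Helper42.TT
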