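import Pool.Agent.Helper17.Rg.SUBQ

/-!
# Places of `ℚ` over `3` and `7` (MP_9d5c58_nt)
-/

set_option autoImplicit false

open NumberField Pool.Agent.Helper92.Ru

namespace Pool.Agent.Helper42.TT

theorem w_int_le (w : FinitePlace ℚ) (n : ℤ) : w (n : ℚ) ≤ 1 :=
  Pool.Agent.Helper17.Rg.w_int_le w n

theorem w_lt_iff (p : ℕ) (hp : p.Prime) (w : FinitePlace ℚ) (hw : w (p : ℚ) < 1) (n : ℤ) :
    w (n : ℚ) < 1 ↔ (p : ℤ) ∣ n := by
  constructor
  · intro h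
    by_contra hn
    have hc : IsCoprime (p : ℤ) n := (Nat.prime_iff_prime_int.1 hp).coprime_iff_not_dvd.2 hn
    obtain ⟨a, b, hab⟩ := hc
    have h1 : ((a * p + b * n : ℤ) : ℚ) = 1 := by rw [hab]; norm_num
    have h2 := FinitePlace.add_le w ((a : ℚ) * (p : ℚ)) ((b : ℚ) * (n : ℚ))
    have h3 : (a : ℚ) * (p : ℚ) + (b : ℚ) * (n : ℚ) = 1 := by
      rw [← h1]; push_cast; ring
    rw [h3, map_one, map_mul, map_mul] at h2
    have ha := w_int_le w a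
    have hb := w_int_le w b
    have hpn : 0 ≤ w (p : ℚ) := apply_nonneg _ _
    have hnn : 0 ≤ w (n : ℚ) := apply_nonneg _ _
    have h4 : w (a : ℚ) * w (p : ℚ) < 1 := by nlinarith [apply_nonneg w (a : ℚ)]
    have h5 : w (b : ℚ) * w (n : ℚ) < 1 := by nlinarith [apply_nonneg w (b : ℚ)]
    exact absurd h2 (not_le.2 (max_lt h4 h5))
  · rintro ⟨m, rfl⟩
    push_cast
    rw [map_mul]
    have := w_int_le w m
    have hpn : 0 ≤ w (p : ℚ) := apply_nonneg _ _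
    nlinarith [apply_nonneg w (m : ℚ)]

theorem int_of_ring (x : 𝓞 ℚ) : ∃ n : ℤ, x = (n : 𝓞 ℚ) := by
  refine ⟨Rat.ringOfIntegersEquiv x, ?_⟩
  apply Rat.ringOfIntegersEquiv.injective
  simp

theorem w_unique (p : ℕ) (hp : p.Prime) (w w' : FinitePlace ℚ) (hw : w (p : ℚ) < 1)
    (hw' : w' (p : ℚ) < 1) : w = w' := by
  apply FinitePlace.maximalIdeal_injective
  apply IsDedekindDomain.HeightOneSpectrum.ext
  ext x
  obtain ⟨n, rfl⟩ := int_of_ring x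
  have key : ∀ v : FinitePlace ℚ, v (p : ℚ) < 1 →
      (((n : 𝓞 ℚ)) ∈ v.maximalIdeal.asIdeal ↔ (p : ℤ) ∣ n) := by
    intro v hv
    rw [← w_lt_iff p hp v hv n, ← FinitePlace.norm_lt_one_iff_mem ℚ v.maximalIdeal (n : 𝓞 ℚ)]
    have h2 : (algebraMap (𝓞 ℚ) ℚ) (n : 𝓞 ℚ) = (n : ℚ) := map_intCast _ n
    rw [h2, FinitePlace.norm_embedding_eq]
  rw [key w hw, key w' hw']

theorem exists_T : ∃ T : Finset (FinitePlace ℚ), ∀ w : FinitePlace ℚ, w ∉ T →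
    w (7 : ℚ) = 1 ∧ w (3 : ℚ) = 1 := by
  have h6 : (21 : ℚ) ≠ 0 := by norm_num
  have hfin : (Function.mulSupport fun w : FinitePlace ℚ => w (21 : ℚ)).Finite :=
    FinitePlace.hasFiniteMulSupport h6
  refine ⟨hfin.toFinset, fun w hw => ?_⟩
  have h1 : w (21 : ℚ) = 1 := by
    by_contra h
    exact hw (hfin.mem_toFinset.2 h)
  have h2 : w (7:ℚ) * w (3:ℚ) = 1 := by
    rw [← map_mul, show (7:ℚ) * 3 = 21 by norm_num, h1]
  have i2 : w (7:ℚ) ≤ 1 := by simpa using w_int_le w 7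
  have i3 : w (3:ℚ) ≤ 1 := by simpa using w_int_le w 3
  have p2 : 0 < w (7:ℚ) := FinitePlace.pos_iff.2 (by norm_num)
  have p3 : 0 < w (3:ℚ) := FinitePlace.pos_iff.2 (by norm_num)
  constructor <;> nlinarith

variable {T : Finset (FinitePlace ℚ)}

/-- the infinite place -/
noncomputable def vI : SP ℚ T := Sum.inl Rat.infinitePlace

theorem nS_inf (v : InfinitePlace ℚ) (x : ℚ) : nS (Sum.inl v : SP ℚ T) x = |(x : ℝ)| := by
  have h1 : v = Rat.infinitePlace := Subsingleton.elim _ _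
  subst h1
  have hm : Rat.infinitePlace.mult = 1 :=
    InfinitePlace.mult_isReal ⟨Rat.infinitePlace, Rat.isReal_infinitePlace⟩
  show Rat.infinitePlace x ^ Rat.infinitePlace.mult = _
  rw [hm, pow_one, Rat.infinitePlace_apply]
  simp

theorem nS_vI (x : ℚ) : nS (vI : SP ℚ T) x = |(x : ℝ)| := nS_inf _ _

theorem nS_zpow (v : SP ℚ T) (x : ℚ) (n : ℤ) : nS v (x ^ n) = nS v x ^ n :=
  Pool.Agent.Helper17.Rg.nS_zpow v x n

theorem unit_ne (a b : ℤ) : (7 : ℚ) ^ a * 3 ^ b ≠ 0 :=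
  mul_ne_zero (zpow_ne_zero _ (by norm_num)) (zpow_ne_zero _ (by norm_num))

theorem unit_SInt (hT : ∀ w : FinitePlace ℚ, w ∉ T → w (7 : ℚ) = 1 ∧ w (3 : ℚ) = 1) (a b : ℤ) :
    SInt T ((7 : ℚ) ^ a * 3 ^ b) := fun w hw => by
  rw [map_mul, map_zpow₀, map_zpow₀, (hT w hw).1, (hT w hw).2]
  simp

theorem unit_inv (a b : ℤ) : ((7 : ℚ) ^ a * 3 ^ b)⁻¹ = 7 ^ (-a) * 3 ^ (-b) := by
  rw [mul_inv, zpow_neg, zpow_neg]

theorem unit_prod (hT : ∀ w : FinitePlace ℚ, w ∉ T → w (7 : ℚ) = 1 ∧ w (3 : ℚ) = 1) (a b : ℤ) :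
    ∏ v : SP ℚ T, nS v ((7 : ℚ) ^ a * 3 ^ b) = 1 := by
  have h1 := one_le_prod_nS (unit_SInt hT a b) (unit_ne a b)
  have h2 := one_le_prod_nS (unit_SInt hT (-a) (-b)) (unit_ne (-a) (-b))
  rw [← unit_inv] at h2
  simp only [nS_inv] at h2
  rw [Finset.prod_inv_distrib] at h2
  have h3 : (∏ v : SP ℚ T, nS v ((7 : ℚ) ^ a * 3 ^ b)) ≤ 1 := by
    by_contra h
    push Not at h
    have := inv_lt_one_of_one_lt₀ h
    linarith
  linarith

theorem unit_logsum (hT : ∀ w : FinitePlace ℚ, w ∉ T → w (7 : ℚ) = 1 ∧ w (3 : ℚ) = 1) (a b : ℤ) :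
    ∑ v : SP ℚ T, Real.log (nS v ((7 : ℚ) ^ a * 3 ^ b)) = 0 := by
  rw [← Real.log_prod, unit_prod hT, Real.log_one]
  intro v _
  exact (nS_pos v (unit_ne a b)).ne'

theorem unit_log (v : SP ℚ T) (a b : ℤ) : Real.log (nS v ((7 : ℚ) ^ a * 3 ^ b)) =
    a * Real.log (nS v (7 : ℚ)) + b * Real.log (nS v (3 : ℚ)) := by
  have h2 : nS v (7 : ℚ) ≠ 0 := (nS_pos v (by norm_num)).ne'
  have h3 : nS v (3 : ℚ) ≠ 0 := (nS_pos v (by norm_num)).ne'
  rw [nS_mul, nS_zpow, nS_zpow, Real.log_mul (zpow_ne_zero _ h2) (zpow_ne_zero _ h3),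
    Real.log_zpow, Real.log_zpow]

/-- the place over a prime `p` (`= 3` or `7`), normalised -/
theorem exists_vp (p : ℕ) (hp : p.Prime)
    (hprod : ∏ v : SP ℚ T, nS v (p : ℚ) = 1) :
    ∃ v : SP ℚ T, nS v (p : ℚ) = 1 / p ∧ (∀ n : ℤ, nS v (n : ℚ) ≤ 1) ∧
      (∀ n : ℤ, ¬ (p : ℤ) ∣ n → nS v (n : ℚ) = 1) := by
  classical
  have hp0 : (0 : ℝ) < p := by exact_mod_cast hp.pos
  have hp1 : (1 : ℝ) < p := by exact_mod_cast hp.one_lt
  rw [Fintype.prod_sum_type] at hprod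
  have h3 : (∏ v : InfinitePlace ℚ, nS (T := T) (Sum.inl v) (p : ℚ)) = p := by
    rw [Fintype.prod_subsingleton _ Rat.infinitePlace, nS_inf]
    simp
  rw [h3] at hprod
  obtain ⟨w, hw, hlt⟩ : ∃ w ∈ T, w (p : ℚ) < 1 := by
    by_contra h
    push Not at h
    have h4 : (1 : ℝ) ≤ ∏ w : {w : FinitePlace ℚ // w ∈ T}, nS (T := T) (Sum.inr w) (p : ℚ) :=
      Finset.one_le_prod (fun w _ => h w.1 w.2)
    nlinarith
  refine ⟨Sum.inr ⟨w, hw⟩, ?_, fun n => w_int_le w n, fun n hn => ?_⟩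
  · have h5 : ∏ w' : {w : FinitePlace ℚ // w ∈ T}, nS (T := T) (Sum.inr w') (p : ℚ) = w (p : ℚ) := by
      rw [Finset.prod_eq_single (⟨w, hw⟩ : {w : FinitePlace ℚ // w ∈ T})]
      · rfl
      · intro w' _ hne
        have h6 : w'.1 (p : ℚ) ≤ 1 := by
          have := w_int_le w'.1 (p : ℤ)
          simpa using this
        rcases h6.lt_or_eq with h7 | h7
        · exact absurd (Subtype.ext (w_unique p hp w'.1 w h7 hlt)) hne
        · exact h7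
      · intro h; exact absurd (Finset.mem_univ _) h
    rw [h5] at hprod
    show w (p : ℚ) = 1 / p
    rw [eq_div_iff hp0.ne']
    linarith
  · show w (n : ℚ) = 1
    have h6 := w_int_le w n
    rcases h6.lt_or_eq with h7 | h7
    · exact absurd ((w_lt_iff p hp w hlt n).1 h7) hn
    · exact h7

theorem exists_v3 (hT : ∀ w : FinitePlace ℚ, w ∉ T → w (7 : ℚ) = 1 ∧ w (3 : ℚ) = 1) :
    ∃ v : SP ℚ T, nS v (3 : ℚ) = 1 / 3 ∧ nS v (7 : ℚ) = 1 ∧ ∀ n : ℤ, nS v (n : ℚ) ≤ 1 := by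
  have h1 := unit_prod hT 0 1
  have h2 : (7 : ℚ) ^ (0 : ℤ) * 3 ^ (1 : ℤ) = ((3 : ℕ) : ℚ) := by norm_num
  rw [h2] at h1
  obtain ⟨v, h3, h4, h5⟩ := exists_vp 3 (by norm_num) h1
  refine ⟨v, by simpa using h3, ?_, h4⟩
  have := h5 7 (by norm_num)
  simpa using this

theorem exists_v7 (hT : ∀ w : FinitePlace ℚ, w ∉ T → w (7 : ℚ) = 1 ∧ w (3 : ℚ) = 1) :
    ∃ v : SP ℚ T, nS v (7 : ℚ) = 1 / 7 ∧ nS v (3 : ℚ) = 1 ∧ ∀ n : ℤ, nS v (n : ℚ) ≤ 1 := by
  have h1 := unit_prod hT 1 0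
  have h2 : (7 : ℚ) ^ (1 : ℤ) * 3 ^ (0 : ℤ) = ((7 : ℕ) : ℚ) := by norm_num
  rw [h2] at h1
  obtain ⟨v, h3, h4, h5⟩ := exists_vp 7 (by norm_num) h1
  refine ⟨v, by simpa using h3, ?_, h4⟩
  have := h5 3 (by norm_num)
  simpa using this

/-- `log` of the normalised absolute values of an integer -/
theorem int_log (n : ℤ) (hn : n ≠ 0) (v : SP ℚ T) :
    |Real.log (nS v (n : ℚ))| ≤ Real.log |(n : ℝ)| := by
  classical
  have hnq : (n : ℚ) ≠ 0 := by exact_mod_cast hn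
  have h1n : (1 : ℝ) ≤ |(n : ℝ)| := by
    rw [← Int.cast_abs]
    exact_mod_cast Int.one_le_abs hn
  have hS : SInt T (n : ℚ) := fun w _ => w_int_le w n
  have h1 := one_le_prod_nS hS hnq
  rw [Fintype.prod_sum_type] at h1
  have h3 : (∏ v : InfinitePlace ℚ, nS (T := T) (Sum.inl v) (n : ℚ)) = |(n : ℝ)| := by
    rw [Fintype.prod_subsingleton _ Rat.infinitePlace, nS_inf]
    simp
  rw [h3] at h1
  rcases v with v | w
  · rw [nS_inf]
    rw [abs_of_nonneg]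
    · simp
    · apply Real.log_nonneg
      simpa using h1n
  · have h4 : (∏ w' : {w : FinitePlace ℚ // w ∈ T}, nS (T := T) (Sum.inr w') (n : ℚ)) ≤
        nS (T := T) (Sum.inr w) (n : ℚ) := by
      rw [← Finset.mul_prod_erase Finset.univ _ (Finset.mem_univ w)]
      refine mul_le_of_le_one_right (nS_nonneg _ _) ?_
      exact Finset.prod_le_one (fun w' _ => nS_nonneg _ _) (fun w' _ => w_int_le w'.1 n)
    have h5 : 1 ≤ |(n : ℝ)| * nS (T := T) (Sum.inr w) (n : ℚ) :=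
      h1.trans (mul_le_mul_of_nonneg_left h4 (abs_nonneg _))
    have h6 : nS (T := T) (Sum.inr w) (n : ℚ) ≤ 1 := w_int_le w.1 n
    have h7 : 0 < nS (T := T) (Sum.inr w) (n : ℚ) := nS_pos _ hnq
    have h8 : Real.log (nS (T := T) (Sum.inr w) (n : ℚ)) ≤ 0 := Real.log_nonpos h7.le h6
    rw [abs_of_nonpos h8]
    have h9 := Real.log_le_log (by norm_num) h5
    rw [Real.log_one, Real.log_mul (by positivity) h7.ne'] at h9
    linarith

theorem int_logsum (n : ℤ) (hn : n ≠ 0) :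
    ∑ v : SP ℚ T, Real.log (nS v (n : ℚ)) ≤ Real.log |(n : ℝ)| := by
  classical
  have hnq : (n : ℚ) ≠ 0 := by exact_mod_cast hn
  rw [Fintype.sum_sum_type]
  have h3 : (∑ v : InfinitePlace ℚ, Real.log (nS (T := T) (Sum.inl v) (n : ℚ))) =
      Real.log |(n : ℝ)| := by
    rw [Fintype.sum_subsingleton _ Rat.infinitePlace, nS_inf]
    simp
  rw [h3]
  have h4 : ∑ w : {w : FinitePlace ℚ // w ∈ T}, Real.log (nS (T := T) (Sum.inr w) (n : ℚ)) ≤ 0 :=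
    Finset.sum_nonpos fun w _ => Real.log_nonpos (nS_nonneg _ _) (w_int_le w.1 n)
  linarith

/-- the same, with the contribution of one place with `nS v ≤ 1` on the integers -/
theorem int_logsum_le (n : ℤ) (hn : n ≠ 0) (v0 : SP ℚ T) (h0 : nS v0 (3 : ℚ) < 1) :
    ∑ v : SP ℚ T, Real.log (nS v (n : ℚ)) ≤ Real.log |(n : ℝ)| + Real.log (nS v0 (n : ℚ)) := by
  classical
  have hnq : (n : ℚ) ≠ 0 := by exact_mod_cast hn
  rcases v0 with v0 | w0
  · rw [nS_inf] at h0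
    norm_num at h0
  · rw [Fintype.sum_sum_type]
    have h3 : (∑ v : InfinitePlace ℚ, Real.log (nS (T := T) (Sum.inl v) (n : ℚ))) =
        Real.log |(n : ℝ)| := by
      rw [Fintype.sum_subsingleton _ Rat.infinitePlace, nS_inf]
      simp
    rw [h3]
    have h4 : ∑ w : {w : FinitePlace ℚ // w ∈ T}, Real.log (nS (T := T) (Sum.inr w) (n : ℚ)) ≤
        Real.log (nS (T := T) (Sum.inr w0) (n : ℚ)) := by
      rw [← Finset.add_sum_erase Finset.univ _ (Finset.mem_univ w0)]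
      have : ∑ w ∈ Finset.univ.erase w0, Real.log (nS (T := T) (Sum.inr w) (n : ℚ)) ≤ 0 :=
        Finset.sum_nonpos fun w _ => Real.log_nonpos (nS_nonneg _ _) (w_int_le w.1 n)
      linarith
    linarith

end Pool.Agent.Helper42.TT
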