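import Pool.Agent.Helper42.TT.Pl

/-!
# S0: the Subspace theorem for a sum of `S`-integers, small at one place (MP_9d5c58_nt)
-/

set_option autoImplicit false

open NumberField Pool.Agent.Helper92.Ru Pool.Agent.Helper17.Rg

namespace Pool.Agent.Helper42.TT

/-- coefficients of a linear form vanishing on a proper subspace -/
theorem exists_formN {r : ℕ} (W : Submodule ℚ (Fin r → ℚ)) (hW : W ≠ ⊤) :
    ∃ u : Fin r → ℚ, u ≠ 0 ∧ ∀ x ∈ W, ∑ i, u i * x i = 0 := by
  obtain ⟨f, hf, hfW⟩ := Submodule.exists_le_ker_of_lt_top W (lt_top_iff_ne_top.2 hW)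
  have key : ∀ x, f x = ∑ i : Fin r, f (Pi.single i 1) * x i := by
    intro x
    have h : x = ∑ i, x i • (Pi.single i (1:ℚ) : Fin r → ℚ) := by
      funext j
      simp [Finset.sum_apply, Pi.single_apply]
    conv_lhs => rw [h]
    rw [map_sum]
    simp only [map_smul, smul_eq_mul, mul_comm]
  refine ⟨fun i => f (Pi.single i 1), ?_, ?_⟩
  · intro h0
    apply hf
    refine LinearMap.ext fun x => ?_
    rw [key x, LinearMap.zero_apply]
    refine Finset.sum_eq_zero fun i _ => ?_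
    have := congrFun h0 i
    simp only [Pi.zero_apply] at this
    rw [this, zero_mul]
  · intro x hx
    have h3 := hfW hx
    rw [LinearMap.mem_ker, key x] at h3
    exact h3

/-- identity matrix with row `m` replaced by `c` -/
def mB {r : ℕ} (c : Fin r → ℚ) (m : Fin r) : Matrix (Fin r) (Fin r) ℚ :=
  (1 : Matrix (Fin r) (Fin r) ℚ).updateRow m c

theorem mB_det {r : ℕ} (c : Fin r → ℚ) (m : Fin r) : (mB c m).det = c m := by
  unfold mB
  rw [← Matrix.cramer_transpose_apply, Matrix.transpose_one, Matrix.cramer_one]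
  rfl

theorem mB_self {r : ℕ} (c : Fin r → ℚ) (m : Fin r) (x : Fin r → ℚ) :
    (mB c m).mulVec x m = ∑ i, c i * x i := by
  simp [mB, Matrix.mulVec, dotProduct]

theorem mB_ne {r : ℕ} (c : Fin r → ℚ) (m : Fin r) (x : Fin r → ℚ) (i : Fin r) (hi : i ≠ m) :
    (mB c m).mulVec x i = x i := by
  simp [mB, Matrix.mulVec, dotProduct, Matrix.updateRow_ne hi, Matrix.one_apply]

theorem s0 {T : Finset (FinitePlace ℚ)} (hS : SubY) {r : ℕ} (v0 : SP ℚ T) (m : Fin r) (B δ : ℝ)
    (hδ : 0 < δ) :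
    ∃ (N0 : ℕ) (F : Finset (Fin r → ℚ)), (∀ q ∈ F, q ≠ 0) ∧
      ∀ N : ℕ, N0 ≤ N → ∀ x : Fin r → ℚ, (∀ i, x i ≠ 0) → (∀ i, SInt T (x i)) →
        (∀ v i, |Real.log (nS (T := T) v (x i))| ≤ B * N) → ∀ E : ℝ, |E| ≤ B * N →
        nS v0 (∑ i, x i) ≤ nS v0 (x m) * Real.exp (-E) →
        ∑ i, ∑ v, Real.log (nS (T := T) v (x i)) - E ≤ -δ * N →
        ∃ q ∈ F, ∑ i, q i * x i = 0 := by
  classical
  let A : SP ℚ T → Matrix (Fin r) (Fin r) ℚ := fun v => if v = v0 then mB (fun _ => 1) m else 1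
  have hA : ∀ v, (A v).det ≠ 0 := by
    intro v
    simp only [A]
    split_ifs
    · rw [mB_det]; norm_num
    · rw [Matrix.det_one]; norm_num
  have hr : 1 ≤ r := by have := m.isLt; omega
  obtain ⟨Q0, F, hQ0, hF, hmain⟩ := hS ℚ T r hr A hA (2 * B) δ hδ
  choose! u hu using fun (W : Submodule ℚ (Fin r → ℚ)) (hW : W ≠ ⊤) => exists_formN W hW
  obtain ⟨N1, hN1⟩ : ∃ N1 : ℕ, Real.log Q0 ≤ N1 := exists_nat_ge _
  refine ⟨max N1 1, F.image u, ?_, ?_⟩
  · intro w hw
    obtain ⟨W, hW, rfl⟩ := Finset.mem_image.1 hw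
    exact (hu W (hF W hW)).1
  intro N hN x hx0 hxS hxB E hE hsm hsum0
  have hNN1 : N1 ≤ N := (le_max_left _ _).trans hN
  have hN1' : 1 ≤ N := (le_max_right _ _).trans hN
  have hNpos : (0:ℝ) < N := by exact_mod_cast hN1'
  let y : SP ℚ T → Fin r → ℝ := fun v i =>
    Real.log (nS v (x i)) / N + (if v = v0 then (if i = m then -(E / N) else 0) else 0)
  have hQ : Q0 ≤ Real.exp N := by
    rw [← Real.log_le_iff_le_exp (by linarith)]
    exact hN1.trans (by exact_mod_cast hNN1)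
  have hyB : ∀ v i, |y v i| ≤ 2 * B := by
    intro v j
    have h0 : |Real.log (nS v (x j)) / N| ≤ B := by
      rw [abs_div, abs_of_pos hNpos, div_le_iff₀ hNpos]
      exact hxB v j
    have hEB : |E / N| ≤ B := by
      rw [abs_div, abs_of_pos hNpos, div_le_iff₀ hNpos]
      exact hE
    have hB0 : 0 ≤ B := (abs_nonneg _).trans hEB
    have h7 : |(if v = v0 then (if j = m then -(E / N) else 0) else (0:ℝ))| ≤ B := by
      split_ifs
      · rw [abs_neg]; exact hEB
      · rw [abs_zero]; exact hB0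
      · rw [abs_zero]; exact hB0
    show |Real.log (nS v (x j)) / N + _| ≤ 2 * B
    refine (abs_add_le _ _).trans ?_
    linarith
  have hQy : ∀ t : ℝ, (Real.exp N) ^ t = Real.exp (N * t) := by
    intro t
    rw [Real.rpow_def_of_pos (Real.exp_pos _), Real.log_exp]
  have hlogX : ∀ (v : SP ℚ T) (j : Fin r),
      Real.exp (N * (Real.log (nS v (x j)) / N)) = nS v (x j) := by
    intro v j
    rw [mul_div_cancel₀ _ hNpos.ne', Real.exp_log (nS_pos v (hx0 j))]
  have hbox : ∀ v i, nS v ((A v).mulVec x i) ≤ (Real.exp N) ^ y v i := by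
    intro v j
    have hy : (Real.exp N) ^ y v j = nS v (x j) * Real.exp (N *
        (if v = v0 then (if j = m then -(E / N) else 0) else 0)) := by
      rw [hQy]
      simp only [y]
      rw [mul_add, Real.exp_add, hlogX]
    rw [hy]
    by_cases hv : v = v0
    · subst hv
      have hAv : A v = mB (fun _ => 1) m := if_pos rfl
      rw [hAv, if_pos rfl]
      by_cases hj : j = m
      · subst hj
        rw [mB_self, if_pos rfl]
        simp only [one_mul]
        refine hsm.trans (le_of_eq ?_)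
        congr 2
        field_simp
      · rw [mB_ne _ _ _ _ hj, if_neg hj]
        simp
    · have hAv : A v = 1 := if_neg hv
      rw [hAv, if_neg hv, Matrix.one_mulVec]
      simp
  have hsum : ∑ v, ∑ i, y v i ≤ -δ := by
    simp only [y, Finset.sum_add_distrib]
    have h11 : ∑ v : SP ℚ T, ∑ i : Fin r, (if v = v0 then (if i = m then -(E / N) else 0)
        else (0:ℝ)) = -(E / N) := by
      rw [Finset.sum_eq_single v0]
      · simp
      · intro v _ hv
        simp [hv]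
      · intro h; exact absurd (Finset.mem_univ _) h
    rw [h11, Finset.sum_comm]
    have h12 : ∑ i, ∑ v, Real.log (nS (T := T) v (x i)) / N =
        (∑ i, ∑ v, Real.log (nS (T := T) v (x i))) / N := by
      rw [Finset.sum_div]
      refine Finset.sum_congr rfl fun i _ => ?_
      rw [Finset.sum_div]
    rw [h12, ← sub_eq_add_neg, ← sub_div, div_le_iff₀ hNpos]
    exact hsum0
  obtain ⟨W, hWF, hxW⟩ := hmain (Real.exp N) hQ x hxS y hyB hbox hsum
  exact ⟨u W, Finset.mem_image_of_mem u hWF, (hu W (hF W hWF)).2 x hxW⟩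

/-- integer relations -/
theorem s0Z {T : Finset (FinitePlace ℚ)} (hS : SubY) {r : ℕ} (B δ : ℝ) (hδ : 0 < δ) :
    ∃ (N0 : ℕ) (F : Finset (Fin r → ℤ)), (∀ q ∈ F, q ≠ 0) ∧ ∀ (v0 : SP ℚ T) (m : Fin r),
      ∀ N : ℕ, N0 ≤ N → ∀ x : Fin r → ℚ, (∀ i, x i ≠ 0) → (∀ i, SInt T (x i)) →
        (∀ v i, |Real.log (nS (T := T) v (x i))| ≤ B * N) → ∀ E : ℝ, |E| ≤ B * N →
        nS v0 (∑ i, x i) ≤ nS v0 (x m) * Real.exp (-E) →
        ∑ i, ∑ v, Real.log (nS (T := T) v (x i)) - E ≤ -δ * N →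
        ∃ q ∈ F, ∑ i, (q i : ℚ) * x i = 0 := by
  classical
  have h := fun (p : SP ℚ T × Fin r) => s0 hS (T := T) p.1 p.2 B δ hδ
  choose N0 F hF hmain using h
  let cl : (Fin r → ℚ) → (Fin r → ℤ) := fun q i => q i * (∏ j, ((q j).den : ℚ)) |>.num
  have hcl : ∀ q : Fin r → ℚ, ∀ i, ((cl q i : ℤ) : ℚ) = (∏ j, ((q j).den : ℚ)) * q i := by
    intro q i
    have h1 : ∃ z : ℤ, (q i * ∏ j, ((q j).den : ℚ)) = z := by
      rw [← Finset.mul_prod_erase Finset.univ (fun j => ((q j).den : ℚ)) (Finset.mem_univ i),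
        ← mul_assoc, Rat.mul_den_eq_num]
      exact ⟨(q i).num * ∏ j ∈ Finset.univ.erase i, ((q j).den : ℤ), by push_cast; rfl⟩
    obtain ⟨z, hz⟩ := h1
    show (((q i * ∏ j, ((q j).den : ℚ)).num : ℤ) : ℚ) = _
    rw [hz, Rat.num_intCast, ← hz, mul_comm]
  have hden : ∀ q : Fin r → ℚ, (∏ j, ((q j).den : ℚ)) ≠ 0 := fun q =>
    Finset.prod_ne_zero_iff.2 fun j _ => by exact_mod_cast (q j).den_nz
  refine ⟨Finset.univ.sup N0, Finset.univ.biUnion (fun p => (F p).image cl), ?_, ?_⟩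
  · intro q hq
    simp only [Finset.mem_biUnion, Finset.mem_univ, true_and, Finset.mem_image] at hq
    obtain ⟨p, q', hq', rfl⟩ := hq
    intro h0
    apply hF p q' hq'
    funext i
    have h1 := hcl q' i
    rw [congrFun h0 i] at h1
    simp only [Pi.zero_apply, Int.cast_zero] at h1
    exact (mul_eq_zero.1 h1.symm).resolve_left (hden q')
  · intro v0 m N hN x hx0 hxS hxB E hE hsm hsum0
    obtain ⟨q, hq, hq0⟩ := hmain (v0, m) N ((Finset.le_sup (Finset.mem_univ (v0, m))).trans hN)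
      x hx0 hxS hxB E hE hsm hsum0
    refine ⟨cl q, ?_, ?_⟩
    · simp only [Finset.mem_biUnion, Finset.mem_univ, true_and, Finset.mem_image]
      exact ⟨(v0, m), q, hq, rfl⟩
    · have h2 : ∑ i, ((cl q i : ℤ) : ℚ) * x i = (∏ j, ((q j).den : ℚ)) * ∑ i, q i * x i := by
        rw [Finset.mul_sum]
        refine Finset.sum_congr rfl fun i _ => ?_
        rw [hcl]; ring
      rw [h2, hq0, mul_zero]

end Pool.Agent.Helper42.TT
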