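import Pool.Agent.Helper42.TT.MM
import Pool.Agent.Helper42.TT.Per

/-!
# The shadow of a trajectory whose word has few periodic pieces (MP_9d5c58_nt)
-/

set_option autoImplicit false

open NumberField Pool.Agent.Helper92.Ru Pool.Agent.Helper17.Rg

namespace Pool.Agent.Helper42.TT

/-- The first `K` terms of the trajectory of `x` are not divisible by `3`, and their residues mod
`3` form a word which can be cut at at most `m` points such that every piece (every factor `[a, b)`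
without a cutting point strictly inside) has a period `≤ P`. -/
def FewBlocks (m : ℕ) (P : ℝ) (x : ℤ) (K : ℕ) : Prop :=
  (∀ t < K, ¬ (3 : ℤ) ∣ Tm^[t] x) ∧
    ∃ s : Finset ℕ, s.card ≤ m ∧ ∀ a b : ℕ, a < b → b ≤ K → (∀ c ∈ s, ¬ (a < c ∧ c < b)) →
      ∃ p : ℕ, 1 ≤ p ∧ (p : ℝ) ≤ P ∧
        ∀ t, a ≤ t → t + p < b → Tm^[t + p] x % 3 = Tm^[t] x % 3

/-- number of branches `true` before time `t` -/
def JJ (x : ℤ) : ℕ → ℕ := jn (w x)

theorem JJ_lip (x : ℤ) (k l : ℕ) (h : k ≤ l) :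
    JJ x k ≤ JJ x l ∧ JJ x l ≤ JJ x k + (l - k) := by
  induction l, h using Nat.le_induction with
  | base => simp
  | succ l hl ih =>
    have h1 : JJ x (l + 1) = JJ x l + if w x l then 1 else 0 := rfl
    rw [h1]
    split_ifs <;> omega

theorem Y_zero (x : ℤ) : Y (JJ x) 0 = 1 := by
  have : JJ x 0 = 0 := rfl
  unfold Y
  rw [this]
  simp

theorem Y_ne (J : ℕ → ℕ) (k : ℕ) : Y J k ≠ 0 := unit_ne _ _

theorem Y_A (x : ℤ) (t : ℕ) (h : w x t = true) : 7 * Y (JJ x) (t + 1) = 3 * Y (JJ x) t := by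
  have h1 : JJ x (t + 1) = JJ x t + 1 := by
    show jn (w x) t + (if w x t then 1 else 0) = _
    rw [h]
    rfl
  unfold Y
  rw [h1]
  push_cast
  rw [neg_add, zpow_add₀ (by norm_num), zpow_add₀ (by norm_num)]
  norm_num
  ring

theorem Y_B (x : ℤ) (t : ℕ) (h : ¬ w x t = true) : Y (JJ x) (t + 1) = 3 * Y (JJ x) t := by
  have h1 : JJ x (t + 1) = JJ x t := by
    show jn (w x) t + (if w x t then 1 else 0) = _
    rw [if_neg h]
    rfl
  unfold Y
  rw [h1]
  push_cast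
  rw [zpow_add₀ (by norm_num)]
  norm_num
  ring

theorem shadow (m : ℕ) (P : ℝ) (x : ℤ) (K : ℕ) (hK : 1 ≤ K) (h : FewBlocks m P x K) :
    ∃ (A : Finset ℕ) (C R : ℕ → ℤ) (D R' : ℤ), A.card ≤ m + 1 ∧ (∀ k ∈ A, k < K) ∧ D ≠ 0 ∧
      |(D : ℝ)| ≤ ((7 : ℝ) ^ P) ^ (m + 1) ∧ (∀ k ∈ A, |(C k : ℝ)| ≤ 2 * ((7 : ℝ) ^ P) ^ (m + 1)) ∧
      (∀ k < K, k ∉ A → C k = 0) ∧
      (∀ t < K, Y (JJ x) t * ((D : ℚ) * (U x t : ℚ) - (R t : ℚ)) =
        (D : ℚ) * (U x 0 : ℚ) - ∑ k ∈ Finset.range (t + 1), (C k : ℚ) * Y (JJ x) k) ∧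
      Y (JJ x) K * ((D : ℚ) * (U x K : ℚ) - (R' : ℚ)) =
        (D : ℚ) * (U x 0 : ℚ) - ∑ k ∈ Finset.range K, (C k : ℚ) * Y (JJ x) k ∧
      (∀ t < K, D * U x t = R t → ∃ p : ℕ, 1 ≤ p ∧ (p : ℝ) ≤ P ∧ Tm^[t + p] x = Tm^[t] x) := by
  classical
  obtain ⟨hsurv, s, hscard, hs⟩ := h
  -- block starts and ends
  let st : ℕ → ℕ := fun t => Nat.findGreatest (fun c => c ∈ s) t
  let e : ℕ → ℕ := fun a => Nat.findGreatest (fun b => ∀ c ∈ s, ¬ (a < c ∧ c < b)) K
  have hst_le : ∀ t, st t ≤ t := fun t => Nat.findGreatest_le t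
  have hst_mem : ∀ t, st t ≠ 0 → st t ∈ s := fun t ht => Nat.findGreatest_of_ne_zero rfl ht
  have hst_gr : ∀ t c, st t < c → c ≤ t → c ∉ s := fun t c h1 h2 =>
    Nat.findGreatest_is_greatest h1 h2
  have hst_succ : ∀ t, st (t + 1) = if t + 1 ∈ s then t + 1 else st t := fun t =>
    Nat.findGreatest_succ t
  have he_spec : ∀ a < K, a + 1 ≤ e a ∧ (∀ c ∈ s, ¬ (a < c ∧ c < e a)) ∧ e a ≤ K := by
    intro a ha
    have h0 : ∀ c ∈ s, ¬ (a < c ∧ c < a + 1) := fun c _ => by omega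
    exact ⟨Nat.le_findGreatest ha h0,
      Nat.findGreatest_spec (P := fun b => ∀ c ∈ s, ¬ (a < c ∧ c < b)) (m := a + 1) ha h0,
      Nat.findGreatest_le K⟩
  have hlt_e : ∀ t < K, t < e (st t) := by
    intro t ht
    have h0 : ∀ c ∈ s, ¬ (st t < c ∧ c < t + 1) := fun c hc h1 =>
      hst_gr t c h1.1 (by omega) hc
    exact Nat.le_findGreatest (P := fun b => ∀ c ∈ s, ¬ (st t < c ∧ c < b)) (m := t + 1) ht h0
  have hpf : ∀ a, ∃ p : ℕ, 1 ≤ p ∧ (a < K → (p : ℝ) ≤ P ∧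
      ∀ t, a ≤ t → t + p < e a → Tm^[t + p] x % 3 = Tm^[t] x % 3) := by
    intro a
    by_cases ha : a < K
    · obtain ⟨h1, h2, h3⟩ := he_spec a ha
      obtain ⟨p, hp1, hp2, hp3⟩ := hs a (e a) (by omega) h3 h2
      exact ⟨p, hp1, fun _ => ⟨hp2, hp3⟩⟩
    · exact ⟨1, le_rfl, fun h => absurd h ha⟩
  choose pf hpf1 hpf2 using hpf
  -- the periodic words
  let ep : ℕ → ℕ → Bool := fun a i => w x (a + i % pf a)
  have hep : ∀ a i, ep a (i + pf a) = ep a i := by
    intro a i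
    simp only [ep, Nat.add_mod_right]
  have hmatch : ∀ a < K, ∀ t, a ≤ t → t < e a → ep a (t - a) = w x t := by
    intro a ha t
    induction t using Nat.strong_induction_on with
    | _ t ih =>
      intro h1 h2
      by_cases h3 : t - a < pf a
      · simp only [ep]
        rw [Nat.mod_eq_of_lt h3]
        congr 1
        omega
      · have h4 : t = (t - pf a) + pf a := by omega
        have h5 := ih (t - pf a) (by have := hpf1 a; omega) (by omega) (by omega)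
        have h6 : t - a = (t - pf a - a) + pf a := by omega
        rw [h6, hep, h5]
        have h7 := (hpf2 a ha).2 (t - pf a) (by omega) (by omega)
        rw [← h4] at h7
        unfold w
        rw [h7]
  -- the data
  let A : Finset ℕ := (insert 0 s).filter (fun a => a < K)
  have hA0 : 0 ∈ A := Finset.mem_filter.2 ⟨Finset.mem_insert_self _ _, hK⟩
  have hAst : ∀ t < K, st t ∈ A := by
    intro t ht
    simp only [A, Finset.mem_filter, Finset.mem_insert]
    refine ⟨?_, lt_of_le_of_lt (hst_le t) ht⟩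
    by_cases h0 : st t = 0
    · exact Or.inl h0
    · exact Or.inr (hst_mem t h0)
  let Dla : ℕ → ℤ := fun a => Dl (ep a) (pf a)
  have hDla : ∀ a, Dla a ≠ 0 := fun a => Dl_ne _ _ (hpf1 a)
  let D : ℤ := ∏ a ∈ A, Dla a
  let Er : ℕ → ℤ := fun a => ∏ a' ∈ A.erase a, Dla a'
  have hEr : ∀ a ∈ A, Dla a * Er a = D := fun a ha => Finset.mul_prod_erase A Dla ha
  have hErne : ∀ a, Er a ≠ 0 := fun a => Finset.prod_ne_zero_iff.2 fun a' _ => hDla a'
  let R : ℕ → ℤ := fun t => Er (st t) * bn (sh (ep (st t)) (t - st t)) (pf (st t))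
  let R1 : ℕ → ℤ := fun t => Er (st t) * bn (sh (ep (st t)) (t - st t + 1)) (pf (st t))
  have hR1 : ∀ t < K, 3 * R1 t = if w x t then 7 * R t else R t + 2 * D := by
    intro t ht
    have h1 := bn_shift (ep (st t)) (pf (st t)) (hep (st t)) (t - st t)
    rw [hmatch (st t) (lt_of_le_of_lt (hst_le t) ht) t (hst_le t) (hlt_e t ht)] at h1
    have h2 := hEr (st t) (hAst t ht)
    have h3 : 3 * R1 t = Er (st t) * (3 * bn (sh (ep (st t)) (t - st t + 1)) (pf (st t))) := by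
      simp only [R1]; ring
    rw [h3, h1]
    simp only [R]
    split_ifs
    · ring
    · rw [← h2]
      simp only [Dla]
      ring
  let C : ℕ → ℤ := fun k => if k = 0 then R 0 else R k - R1 (k - 1)
  -- bounds
  have hP1 : 1 ≤ P := by
    have h1 := (hpf2 0 hK).1
    have h2 : (1 : ℝ) ≤ pf 0 := by exact_mod_cast hpf1 0
    linarith
  have hM1 : (1 : ℝ) ≤ (7 : ℝ) ^ P := Real.one_le_rpow (by norm_num) (by linarith)
  have hDlaR : ∀ a ∈ A, |(Dla a : ℝ)| ≤ (7 : ℝ) ^ P := by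
    intro a ha
    have h1 := Dl_le (ep a) (pf a)
    have h2 : |(Dla a : ℝ)| ≤ (7 : ℝ) ^ (pf a) := by
      have : ((|Dla a| : ℤ) : ℝ) ≤ ((7 ^ pf a : ℤ) : ℝ) := by exact_mod_cast h1
      push_cast at this
      exact this
    refine h2.trans ?_
    rw [← Real.rpow_natCast]
    exact Real.rpow_le_rpow_of_exponent_le (by norm_num)
      (hpf2 a (Finset.mem_filter.1 ha).2).1
  have hbnR : ∀ a < K, ∀ i, |((bn (sh (ep a) i) (pf a) : ℤ) : ℝ)| ≤ (7 : ℝ) ^ P := by
    intro a ha i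
    have h1 := bn_le (sh (ep a) i) (pf a)
    have h0 := bn_nonneg (sh (ep a) i) (pf a)
    have h2 : |((bn (sh (ep a) i) (pf a) : ℤ) : ℝ)| ≤ (7 : ℝ) ^ (pf a) := by
      rw [abs_of_nonneg (by exact_mod_cast h0)]
      exact_mod_cast h1
    refine h2.trans ?_
    rw [← Real.rpow_natCast]
    exact Real.rpow_le_rpow_of_exponent_le (by norm_num) (hpf2 a ha).1
  have hAcard : A.card ≤ m + 1 := by
    refine (Finset.card_filter_le _ _).trans ((Finset.card_insert_le _ _).trans ?_)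
    omega
  have hprodR : ∀ B : Finset ℕ, B ⊆ A → |((∏ a ∈ B, Dla a : ℤ) : ℝ)| ≤ ((7 : ℝ) ^ P) ^ B.card := by
    intro B hB
    push_cast
    rw [Finset.abs_prod]
    refine (Finset.prod_le_prod (fun _ _ => abs_nonneg _) (fun a ha => hDlaR a (hB ha))).trans ?_
    rw [Finset.prod_const]
  have hRb : ∀ t < K, ∀ i, |((Er (st t) * bn (sh (ep (st t)) i) (pf (st t)) : ℤ) : ℝ)| ≤
      ((7 : ℝ) ^ P) ^ (m + 1) := by
    intro t ht i
    rw [Int.cast_mul, abs_mul]
    have h1 := hprodR (A.erase (st t)) (Finset.erase_subset _ _)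
    have h2 := hbnR (st t) (lt_of_le_of_lt (hst_le t) ht) i
    have h3 : (A.erase (st t)).card + 1 = A.card := Finset.card_erase_add_one (hAst t ht)
    calc |((Er (st t) : ℤ) : ℝ)| * |((bn (sh (ep (st t)) i) (pf (st t)) : ℤ) : ℝ)| ≤
          ((7 : ℝ) ^ P) ^ (A.erase (st t)).card * (7 : ℝ) ^ P :=
          mul_le_mul h1 h2 (abs_nonneg _) (by positivity)
      _ = ((7 : ℝ) ^ P) ^ A.card := by rw [← h3, pow_succ]
      _ ≤ ((7 : ℝ) ^ P) ^ (m + 1) := pow_le_pow_right₀ hM1 hAcard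
  -- the identities
  have hstep : ∀ t < K, Y (JJ x) (t + 1) * ((D : ℚ) * (U x (t + 1) : ℚ) - (R1 t : ℚ)) =
      Y (JJ x) t * ((D : ℚ) * (U x t : ℚ) - (R t : ℚ)) := by
    intro t ht
    have h1 := hR1 t ht
    have h2 := U_step x t (hsurv t ht)
    by_cases hw : w x t = true
    · rw [if_pos hw] at h1 h2
      have h3 := Y_A x t hw
      have h1' : (3 : ℚ) * (R1 t : ℚ) = 7 * (R t : ℚ) := by exact_mod_cast h1
      have h2' : (3 : ℚ) * (U x (t + 1) : ℚ) = 7 * (U x t : ℚ) := by exact_mod_cast h2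
      have h4 : (3 : ℚ) * ((D : ℚ) * (U x (t + 1) : ℚ) - (R1 t : ℚ)) =
          7 * ((D : ℚ) * (U x t : ℚ) - (R t : ℚ)) := by
        linear_combination (D : ℚ) * h2' - h1'
      have h5 : (21 : ℚ) * (Y (JJ x) (t + 1) * ((D : ℚ) * (U x (t + 1) : ℚ) - (R1 t : ℚ))) =
          21 * (Y (JJ x) t * ((D : ℚ) * (U x t : ℚ) - (R t : ℚ))) := by
        linear_combination (7 * Y (JJ x) (t + 1)) * h4 +
          7 * ((D : ℚ) * (U x t : ℚ) - (R t : ℚ)) * h3
      linarith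
    · rw [if_neg hw] at h1 h2
      have h3 := Y_B x t hw
      have h1' : (3 : ℚ) * (R1 t : ℚ) = (R t : ℚ) + 2 * (D : ℚ) := by exact_mod_cast h1
      have h2' : (3 : ℚ) * (U x (t + 1) : ℚ) = (U x t : ℚ) + 2 := by exact_mod_cast h2
      have h4 : (3 : ℚ) * ((D : ℚ) * (U x (t + 1) : ℚ) - (R1 t : ℚ)) =
          ((D : ℚ) * (U x t : ℚ) - (R t : ℚ)) := by
        linear_combination (D : ℚ) * h2' - h1'
      rw [h3]
      linear_combination (Y (JJ x) t) * h4
  have hid : ∀ t < K, Y (JJ x) t * ((D : ℚ) * (U x t : ℚ) - (R t : ℚ)) =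
        (D : ℚ) * (U x 0 : ℚ) - ∑ k ∈ Finset.range (t + 1), (C k : ℚ) * Y (JJ x) k := by
    intro t
    induction t with
    | zero =>
      intro _
      simp [Y_zero, C]
    | succ t ih =>
      intro ht
      rw [Finset.sum_range_succ, ← sub_sub, ← ih (by omega), ← hstep t (by omega)]
      have h1 : (C (t + 1) : ℚ) = (R (t + 1) : ℚ) - (R1 t : ℚ) := by
        simp [C]
      rw [h1]
      ring
  refine ⟨A, C, R, D, R1 (K - 1), hAcard, fun k hk => (Finset.mem_filter.1 hk).2,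
    Finset.prod_ne_zero_iff.2 fun a _ => hDla a, ?_, ?_, ?_, hid, ?_, ?_⟩
  · exact (hprodR A (Finset.Subset.refl _)).trans (pow_le_pow_right₀ hM1 hAcard)
  · intro k hk
    have hkK : k < K := (Finset.mem_filter.1 hk).2
    have hpos : (0:ℝ) ≤ ((7 : ℝ) ^ P) ^ (m + 1) := by positivity
    simp only [C]
    split_ifs with hk0
    · have := hRb 0 hK (0 - st 0)
      refine le_trans this ?_
      linarith
    · rw [Int.cast_sub]
      refine (abs_sub _ _).trans ?_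
      have h1 := hRb k hkK (k - st k)
      have h2 := hRb (k - 1) (by omega) (k - 1 - st (k - 1) + 1)
      have h3 : |((R k : ℤ) : ℝ)| ≤ ((7 : ℝ) ^ P) ^ (m + 1) := h1
      have h4 : |((R1 (k - 1) : ℤ) : ℝ)| ≤ ((7 : ℝ) ^ P) ^ (m + 1) := h2
      linarith
  · intro k hk hkA
    have hk0 : k ≠ 0 := fun h0 => hkA (h0 ▸ hA0)
    obtain ⟨t, rfl⟩ := Nat.exists_eq_succ_of_ne_zero hk0
    have hks : t + 1 ∉ s := fun h1 => hkA (Finset.mem_filter.2 ⟨Finset.mem_insert_of_mem h1, hk⟩)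
    have h2 : st (t + 1) = st t := by rw [hst_succ, if_neg hks]
    have h3 : st t ≤ t := hst_le t
    simp only [C, Nat.succ_eq_add_one, Nat.add_sub_cancel]
    rw [if_neg (by omega)]
    simp only [R, R1, h2]
    have h4 : t + 1 - st t = t - st t + 1 := by omega
    rw [h4, sub_self]
  · obtain ⟨k, rfl⟩ := Nat.exists_eq_add_of_le hK
    rw [Nat.add_comm 1 k, Nat.add_sub_cancel, hstep k (by omega), hid k (by omega)]
  · intro t ht hR
    refine ⟨pf (st t), hpf1 _, (hpf2 (st t) (lt_of_le_of_lt (hst_le t) ht)).1, ?_⟩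
    have h1 := hEr (st t) (hAst t ht)
    have h2 : Dla (st t) * U x t = bn (sh (ep (st t)) (t - st t)) (pf (st t)) := by
      apply mul_left_cancel₀ (hErne (st t))
      have h3 : Er (st t) * (Dla (st t) * U x t) = D * U x t := by rw [← h1]; ring
      rw [h3, hR]
    have h4 := cycle (ep (st t)) (pf (st t)) (hep (st t)) (hpf1 _) (Tm^[t] x) (t - st t)
      (by rw [U_add, Nat.zero_add]; exact h2)
    rw [Nat.add_comm, Function.iterate_add_apply]
    exact h4

end Pool.Agent.Helper42.TT
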