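import Pool.Agent.Helper42.TT.Sha

/-!
# Theorem 1: words with few periodic pieces (MP_9d5c58_nt)
-/

set_option autoImplicit false

open NumberField Pool.Agent.Helper92.Ru Pool.Agent.Helper17.Rg

namespace Pool.Agent.Helper42.TT

theorem th1 (hS : SubY) (m : ℕ) (ε : ℝ) (hε : 0 < ε) :
    ∃ η : ℝ, 0 < η ∧ η ≤ 1 / 2 ∧ ∀ (x : ℤ) (K : ℕ) (P : ℝ), 1 ≤ K → P ≤ η * K →
      FewBlocks m P x K →
      (3 : ℝ) ^ ((1 - ε) * K) < |(x : ℝ)| ∨
        ∃ t p : ℕ, t < K ∧ 1 ≤ p ∧ (p : ℝ) ≤ P ∧ Tm^[t + p] x = Tm^[t] x := by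
  classical
  obtain ⟨T, hT⟩ := exists_T
  obtain ⟨v3, h33, h37, h3I⟩ := exists_v3 hT
  set ε' : ℝ := min ε 1 with hε'
  have hε'0 : 0 < ε' := lt_min hε one_pos
  have hε'1 : ε' ≤ 1 := min_le_right _ _
  have hε'ε : ε' ≤ ε := min_le_left _ _
  choose ηf hηf Nf hNf using fun r : ℕ => mmE hS hT v3 h33 h37 h3I (ε' / 2) (by linarith) r
  obtain ⟨c, hc, hc'⟩ := exists_pos_le (Finset.range (m + 2)) ηf (fun r _ => hηf r)
  set N0 : ℕ := (Finset.range (m + 2)).sup Nf with hN0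
  set η : ℝ := min (min (ε' / 2) (c / 2)) (min (c / (6 * (m + 1))) (1 / (N0 + 1))) with hη
  have hη0 : 0 < η := by
    refine lt_min (lt_min (by linarith) (by linarith)) (lt_min ?_ ?_) <;> positivity
  have hη1 : η ≤ ε' / 2 := (min_le_left _ _).trans (min_le_left _ _)
  have hη2 : η ≤ c / 2 := (min_le_left _ _).trans (min_le_right _ _)
  have hη3 : 3 * (m + 1) * η ≤ c / 2 := by
    have h1 : η ≤ c / (6 * (m + 1)) := (min_le_right _ _).trans (min_le_left _ _)
    rw [le_div_iff₀ (by positivity)] at h1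
    linarith
  have hη4 : η * (N0 + 1) ≤ 1 := by
    have h1 : η ≤ 1 / (N0 + 1) := (min_le_right _ _).trans (min_le_right _ _)
    rwa [le_div_iff₀ (by positivity)] at h1
  refine ⟨η, hη0, by linarith, fun x K P hK hPK hFB => ?_⟩
  by_cases hbig : (3 : ℝ) ^ ((1 - ε) * K) < |(x : ℝ)|
  · exact Or.inl hbig
  right
  push Not at hbig
  have hKpos : (0:ℝ) < K := by exact_mod_cast hK
  -- `1 ≤ P ≤ η K`
  have hP1 : 1 ≤ P := by
    obtain ⟨_, s, _, hs⟩ := hFB
    obtain ⟨p, hp1, hp2, _⟩ := hs 0 1 one_pos hK (fun c _ h => by omega)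
    have : (1 : ℝ) ≤ p := by exact_mod_cast hp1
    linarith
  have hηK : 1 ≤ η * K := hP1.trans hPK
  have hKN0 : N0 ≤ K := by
    by_contra h
    push Not at h
    have h1 : (K : ℝ) + 1 ≤ N0 := by exact_mod_cast h
    have h2 : η * K < η * (N0 + 1) := mul_lt_mul_of_pos_left (by linarith) hη0
    linarith
  obtain ⟨A, C, R, D, R', hAc, hAK, hD, hDb, hCb, hC0, hid, hlast, hcyc⟩ :=
    shadow m P x K hK hFB
  -- the bound for the coefficients
  have hM : 2 * ((7 : ℝ) ^ P) ^ (m + 1) ≤ (2 : ℝ) ^ (c * K) := by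
    have h1 : (7 : ℝ) ^ P ≤ (2 : ℝ) ^ (3 * (η * K)) := by
      refine (Real.rpow_le_rpow_of_exponent_le (by norm_num) hPK).trans ?_
      rw [Real.rpow_mul (by norm_num) 3 (η * K)]
      exact Real.rpow_le_rpow (by norm_num) (by norm_num) (by positivity)
    have h2 : ((7 : ℝ) ^ P) ^ (m + 1) ≤ (2 : ℝ) ^ (3 * (η * K) * (m + 1)) := by
      calc ((7 : ℝ) ^ P) ^ (m + 1) ≤ ((2 : ℝ) ^ (3 * (η * K))) ^ (m + 1) :=
            pow_le_pow_left₀ (by positivity) h1 _
        _ = (2 : ℝ) ^ (3 * (η * K) * (m + 1)) := by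
            rw [← Real.rpow_natCast, ← Real.rpow_mul (by norm_num)]
            push_cast
            rfl
    calc 2 * ((7 : ℝ) ^ P) ^ (m + 1) ≤ 2 * (2 : ℝ) ^ (3 * (η * K) * (m + 1)) := by
          linarith
      _ = (2 : ℝ) ^ (1 + 3 * (η * K) * (m + 1)) := by
          rw [Real.rpow_add (by norm_num), Real.rpow_one]
      _ ≤ (2 : ℝ) ^ (c * K) := by
          apply Real.rpow_le_rpow_of_exponent_le (by norm_num)
          have h3 : η * K ≤ c / 2 * K := mul_le_mul_of_nonneg_right hη2 hKpos.le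
          have h4 : 3 * (m + 1) * η * K ≤ c / 2 * K := mul_le_mul_of_nonneg_right hη3 hKpos.le
          nlinarith
  have hcr : c ≤ ηf A.card := hc' _ (Finset.mem_range.2 (by omega))
  have hM2 : (2 : ℝ) ^ (c * K) ≤ (2 : ℝ) ^ (ηf A.card * K) :=
    Real.rpow_le_rpow_of_exponent_le (by norm_num) (mul_le_mul_of_nonneg_right hcr hKpos.le)
  have hNfA : Nf A.card ≤ K :=
    (Finset.le_sup (f := Nf) (Finset.mem_range.2 (by omega))).trans hKN0
  have hMpos : (0:ℝ) < ((7 : ℝ) ^ P) ^ (m + 1) := by positivity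
  -- sums over `A`
  have hsumA : ∀ n ≤ K, ∑ k ∈ Finset.range n, (C k : ℚ) * Y (JJ x) k =
      ∑ k ∈ A.filter (fun k => k < n), (C k : ℚ) * Y (JJ x) k := by
    intro n hn
    symm
    apply Finset.sum_subset
    · intro k hk
      exact Finset.mem_range.2 (Finset.mem_filter.1 hk).2
    · intro k hk hkA
      have h1 : k < n := Finset.mem_range.1 hk
      have h2 : k ∉ A := fun h => hkA (Finset.mem_filter.2 ⟨h, h1⟩)
      rw [hC0 k (by omega) h2]
      simp
  have hAfil : A.filter (fun k => k < K) = A := Finset.filter_true_of_mem hAK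
  -- the size of `u`
  have hub : |(U x 0 : ℝ)| ≤ (3 : ℝ) ^ ((1 - ε' / 2) * K) := by
    have h1 : |(U x 0 : ℝ)| ≤ 2 * |(x : ℝ)| + 1 := by
      unfold U
      simp only [Function.iterate_zero, id_eq]
      push_cast
      rw [abs_neg]
      refine (abs_add_le _ _).trans ?_
      rw [abs_mul, abs_two, abs_one]
    have h2 : (3 : ℝ) ^ ((1 - ε) * K) ≤ (3 : ℝ) ^ ((1 - ε') * K) :=
      Real.rpow_le_rpow_of_exponent_le (by norm_num)
        (mul_le_mul_of_nonneg_right (by linarith) hKpos.le)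
    have h3 : (1 : ℝ) ≤ (3 : ℝ) ^ ((1 - ε') * K) :=
      Real.one_le_rpow (by norm_num) (mul_nonneg (by linarith) hKpos.le)
    have h4 : |(U x 0 : ℝ)| ≤ 3 * (3 : ℝ) ^ ((1 - ε') * K) := by linarith
    refine h4.trans ?_
    have h5 : 3 * (3 : ℝ) ^ ((1 - ε') * K) = (3 : ℝ) ^ (1 + (1 - ε') * K) := by
      rw [Real.rpow_add (by norm_num), Real.rpow_one]
    rw [h5]
    apply Real.rpow_le_rpow_of_exponent_le (by norm_num)
    have h6 : η * K ≤ ε' / 2 * K := mul_le_mul_of_nonneg_right hη1 hKpos.le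
    nlinarith
  -- the main lemma
  obtain ⟨κ, hκ⟩ := hNf A.card K hNfA A (JJ x) C D (U x 0) rfl (fun k hk => (hAK k hk).le)
    (JJ_lip x) rfl (fun k hk => ((hCb k hk).trans hM).trans hM2) hD
    ((hDb.trans (by linarith)).trans (hM.trans hM2)) hub
    (by
      have h1 : -((D * U x 0 : ℤ) : ℚ) + ∑ k ∈ A, (C k : ℚ) * Y (JJ x) k =
          -(Y (JJ x) K * ((D * U x K - R' : ℤ) : ℚ)) := by
        have h2 := hsumA K le_rfl
        rw [hAfil] at h2
        push_cast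
        rw [hlast, h2]
        ring
      rw [h1, nS_neg, nS_mul]
      unfold Y
      rw [nS_unit_v3 v3 h33 h37]
      calc (3 : ℝ) ^ (-(K : ℤ)) * nS v3 ((D * U x K - R' : ℤ) : ℚ) ≤ (3 : ℝ) ^ (-(K : ℤ)) * 1 :=
            mul_le_mul_of_nonneg_left (h3I _) (by positivity)
        _ = _ := mul_one _)
  have hκ0 : κ ≠ 0 := by
    intro h0
    rw [h0] at hκ
    simp only [Nat.not_lt_zero, Finset.filter_false, Finset.sum_empty] at hκ
    have h1 : D * U x 0 = 0 := by exact_mod_cast hκ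
    rcases mul_eq_zero.1 h1 with h2 | h2
    · exact hD h2
    · exact U_ne x 0 h2
  obtain ⟨t, ht⟩ : ∃ t, min κ K = t + 1 := ⟨min κ K - 1, by omega⟩
  have htK : t < K := by omega
  have hfil : A.filter (fun k => k < κ) = A.filter (fun k => k < t + 1) := by
    apply Finset.filter_congr
    intro k hk
    have := hAK k hk
    rw [← ht, lt_min_iff]
    exact ⟨fun h => ⟨h, this⟩, fun h => h.1⟩
  have h1 := hid t htK
  rw [hsumA (t + 1) (by omega), ← hfil, ← hκ] at h1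
  push_cast at h1
  rw [sub_self] at h1
  have h2 : (D : ℚ) * (U x t : ℚ) - (R t : ℚ) = 0 :=
    (mul_eq_zero.1 h1).resolve_left (Y_ne _ _)
  have h3 : D * U x t = R t := by
    have : (D : ℚ) * (U x t : ℚ) = (R t : ℚ) := by linarith
    exact_mod_cast this
  obtain ⟨p, hp1, hp2, hp3⟩ := hcyc t htK h3
  exact ⟨t, p, htK, hp1, hp2, hp3⟩

end Pool.Agent.Helper42.TT
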