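import Pool.Agent.Helper42.TT.Th3

/-!
# Theorem 2: cycles whose word has few periodic pieces (MP_9d5c58_nt)
-/

set_option autoImplicit false

open NumberField Pool.Agent.Helper92.Ru Pool.Agent.Helper17.Rg

namespace Pool.Agent.Helper42.TT

theorem iter_sub (x : ℤ) (n k : ℕ) (hn : Tm^[n] x = x) (hk : n ≤ k) :
    Tm^[k] x = Tm^[k - n] x := by
  conv_lhs => rw [show k = (k - n) + n by omega, Function.iterate_add_apply, hn]

theorem fewBlocks_rot (m : ℕ) (P : ℝ) (x : ℤ) (n t : ℕ) (hn : Tm^[n] x = x) (ht : t < n)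
    (h : FewBlocks m P x n) : FewBlocks (2 * m + 1) P (Tm^[t] x) n := by
  classical
  obtain ⟨hsurv, s, hs, hcut⟩ := h
  refine ⟨fun k hk => ?_, insert (n - t) (s.image (fun c => c - t) ∪ s.image (fun c => c + n - t)),
    ?_, ?_⟩
  · rw [← Function.iterate_add_apply]
    by_cases h1 : k + t < n
    · exact hsurv _ h1
    · rw [iter_sub x n (k + t) hn (by omega)]
      exact hsurv _ (by omega)
  · refine (Finset.card_insert_le _ _).trans ?_
    have h1 := Finset.card_union_le (s.image (fun c => c - t)) (s.image (fun c => c + n - t))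
    have h2 : (s.image (fun c => c - t)).card ≤ s.card := Finset.card_image_le
    have h3 : (s.image (fun c => c + n - t)).card ≤ s.card := Finset.card_image_le
    omega
  · intro a b hab hbn hc
    have hc1 : ¬ (a < n - t ∧ n - t < b) := hc _ (Finset.mem_insert_self _ _)
    have hc2 : ∀ c ∈ s, ¬ (a < c - t ∧ c - t < b) := fun c hcs =>
      hc _ (Finset.mem_insert_of_mem (Finset.mem_union_left _ (Finset.mem_image_of_mem _ hcs)))
    have hc3 : ∀ c ∈ s, ¬ (a < c + n - t ∧ c + n - t < b) := fun c hcs =>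
      hc _ (Finset.mem_insert_of_mem (Finset.mem_union_right _ (Finset.mem_image_of_mem
        (fun c => c + n - t) hcs)))
    by_cases h1 : b ≤ n - t
    · obtain ⟨p, hp1, hp2, hp3⟩ := hcut (a + t) (b + t) (by omega) (by omega)
        (fun c hcs h => hc2 c hcs (by omega))
      refine ⟨p, hp1, hp2, fun k hk1 hk2 => ?_⟩
      rw [← Function.iterate_add_apply, ← Function.iterate_add_apply]
      have := hp3 (k + t) (by omega) (by omega)
      rw [show k + p + t = k + t + p by ring]
      exact this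
    · have h2 : n - t ≤ a := by omega
      obtain ⟨p, hp1, hp2, hp3⟩ := hcut (a + t - n) (b + t - n) (by omega) (by omega)
        (fun c hcs h => hc3 c hcs (by omega))
      refine ⟨p, hp1, hp2, fun k hk1 hk2 => ?_⟩
      rw [← Function.iterate_add_apply, ← Function.iterate_add_apply,
        iter_sub x n (k + p + t) hn (by omega), iter_sub x n (k + t) hn (by omega)]
      have := hp3 (k + t - n) (by omega) (by omega)
      rw [show k + p + t - n = k + t - n + p by omega]
      exact this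

/-- closed formula -/
theorem U_formula (x : ℤ) (n : ℕ) (hsurv : ∀ t < n, ¬ (3 : ℤ) ∣ Tm^[t] x) :
    ∀ t ≤ n, 3 ^ t * U x t = 7 ^ jn (w x) t * U x 0 + bn (w x) t := by
  intro t
  induction t with
  | zero => intro _; simp [jn, bn]
  | succ t ih =>
    intro ht
    have h1 := ih (by omega)
    have h2 := U_step x t (hsurv t (by omega))
    have h3 : jn (w x) (t + 1) = jn (w x) t + if w x t then 1 else 0 := rfl
    have h4 : bn (w x) (t + 1) = if w x t then 7 * bn (w x) t else bn (w x) t + 2 * 3 ^ t := rfl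
    rw [h3, h4]
    by_cases hw : w x t = true
    · rw [if_pos hw] at h2
      simp only [if_pos hw]
      rw [pow_succ, pow_succ]
      linear_combination (3 ^ t) * h2 + 7 * h1
    · rw [if_neg hw] at h2
      simp only [if_neg hw, add_zero]
      rw [pow_succ]
      linear_combination (3 ^ t) * h2 + h1

theorem cycle_bound (x : ℤ) (n : ℕ) (hn1 : 1 ≤ n) (hn : Tm^[n] x = x)
    (hsurv : ∀ t < n, ¬ (3 : ℤ) ∣ Tm^[t] x) : |x| ≤ 7 ^ n := by
  have h1 := U_formula x n hsurv n le_rfl
  have h2 : U x n = U x 0 := by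
    unfold U
    rw [hn]
    rfl
  rw [h2] at h1
  have h3 : Dl (w x) n * U x 0 = bn (w x) n := by
    unfold Dl
    linear_combination h1
  have h4 := Dl_ne (w x) n hn1
  have h5 : |U x 0| ≤ 7 ^ n := by
    have h6 : |Dl (w x) n| * |U x 0| = bn (w x) n := by
      rw [← abs_mul, h3, abs_of_nonneg (bn_nonneg _ _)]
    have h7 := Int.one_le_abs h4
    have h8 := bn_le (w x) n
    nlinarith [abs_nonneg (U x 0)]
  have h9 : |x| ≤ |U x 0| := by
    unfold U
    simp only [Function.iterate_zero, id_eq]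
    rcases abs_cases x with ⟨h1, _⟩ | ⟨h1, _⟩ <;>
    rcases abs_cases (-(2 * x + 1)) with ⟨h2, _⟩ | ⟨h2, _⟩ <;> rw [h1, h2] <;> omega
  exact h9.trans h5

/-- if all elements of the cycle are large then `3 ^ n / 7 ^ j` is close to `1` -/
theorem close_one (x : ℤ) (n : ℕ) (hn : Tm^[n] x = x)
    (hsurv : ∀ t < n, ¬ (3 : ℤ) ∣ Tm^[t] x) (M : ℝ) (hM : 4 * n ≤ M) (hM1 : 1 ≤ M)
    (hbig : ∀ t < n, M ≤ |(U x t : ℝ)|) : |(Y (JJ x) n : ℝ) - 1| ≤ 4 * n / M := by
  have hMpos : 0 < M := by linarith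
  have hYpos : ∀ t, (0:ℝ) < (Y (JJ x) t : ℝ) := by
    intro t
    unfold Y
    push_cast
    positivity
  have key : ∀ t ≤ n, |(Y (JJ x) t : ℝ) * (U x t : ℝ) - (U x 0 : ℝ)| ≤
      4 * t / M * |(U x 0 : ℝ)| := by
    intro t
    induction t with
    | zero => intro _; simp [Y_zero]
    | succ t ih =>
      intro ht
      have h1 := ih (by omega)
      have h2 := U_step x t (hsurv t (by omega))
      have h3 : |(Y (JJ x) (t + 1) : ℝ) * (U x (t + 1) : ℝ) -
          (Y (JJ x) t : ℝ) * (U x t : ℝ)| ≤ 2 * (Y (JJ x) t : ℝ) := by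
        by_cases hw : w x t = true
        · rw [if_pos hw] at h2
          have h4 : (7 : ℝ) * (Y (JJ x) (t + 1) : ℝ) = 3 * (Y (JJ x) t : ℝ) := by
            exact_mod_cast Y_A x t hw
          have h5 : (3 : ℝ) * (U x (t + 1) : ℝ) = 7 * (U x t : ℝ) := by exact_mod_cast h2
          have h6 : (21 : ℝ) * ((Y (JJ x) (t + 1) : ℝ) * (U x (t + 1) : ℝ) -
              (Y (JJ x) t : ℝ) * (U x t : ℝ)) = 0 := by
            linear_combination (7 * (Y (JJ x) (t + 1) : ℝ)) * h5 + 7 * (U x t : ℝ) * h4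
          have h7 : (Y (JJ x) (t + 1) : ℝ) * (U x (t + 1) : ℝ) -
              (Y (JJ x) t : ℝ) * (U x t : ℝ) = 0 := by linarith
          rw [h7, abs_zero]
          have := hYpos t
          linarith
        · rw [if_neg hw] at h2
          have h4 : (Y (JJ x) (t + 1) : ℝ) = 3 * (Y (JJ x) t : ℝ) := by
            exact_mod_cast Y_B x t hw
          have h5 : (3 : ℝ) * (U x (t + 1) : ℝ) = (U x t : ℝ) + 2 := by exact_mod_cast h2
          have h6 : (Y (JJ x) (t + 1) : ℝ) * (U x (t + 1) : ℝ) -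
              (Y (JJ x) t : ℝ) * (U x t : ℝ) = 2 * (Y (JJ x) t : ℝ) := by
            rw [h4]
            linear_combination (Y (JJ x) t : ℝ) * h5
          rw [h6, abs_of_pos (by have := hYpos t; linarith)]
      have hu0 : 0 ≤ |(U x 0 : ℝ)| := abs_nonneg _
      have htn : 4 * (t : ℝ) / M ≤ 1 := by
        rw [div_le_one hMpos]
        have : (t : ℝ) ≤ n := by exact_mod_cast (by omega : t ≤ n)
        linarith
      have h8 : (Y (JJ x) t : ℝ) * M ≤ 2 * |(U x 0 : ℝ)| := by
        have h9 : (Y (JJ x) t : ℝ) * M ≤ (Y (JJ x) t : ℝ) * |(U x t : ℝ)| :=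
          mul_le_mul_of_nonneg_left (hbig t (by omega)) (hYpos t).le
        have h10 : (Y (JJ x) t : ℝ) * |(U x t : ℝ)| = |(Y (JJ x) t : ℝ) * (U x t : ℝ)| := by
          rw [abs_mul, abs_of_pos (hYpos t)]
        have h11 : |(Y (JJ x) t : ℝ) * (U x t : ℝ)| ≤
            |(Y (JJ x) t : ℝ) * (U x t : ℝ) - (U x 0 : ℝ)| + |(U x 0 : ℝ)| := by
          have := abs_add_le ((Y (JJ x) t : ℝ) * (U x t : ℝ) - (U x 0 : ℝ)) (U x 0 : ℝ)
          rwa [sub_add_cancel] at this
        have h12 : 4 * (t : ℝ) / M * |(U x 0 : ℝ)| ≤ 1 * |(U x 0 : ℝ)| :=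
          mul_le_mul_of_nonneg_right htn hu0
        linarith
      have h13 : 2 * (Y (JJ x) t : ℝ) ≤ 4 / M * |(U x 0 : ℝ)| := by
        rw [div_mul_eq_mul_div, le_div_iff₀ hMpos]
        linarith
      have h14 := abs_add_le ((Y (JJ x) (t + 1) : ℝ) * (U x (t + 1) : ℝ) -
          (Y (JJ x) t : ℝ) * (U x t : ℝ)) ((Y (JJ x) t : ℝ) * (U x t : ℝ) - (U x 0 : ℝ))
      rw [sub_add_sub_cancel] at h14
      have h15 : 4 * ((t + 1 : ℕ) : ℝ) / M * |(U x 0 : ℝ)| =
          4 / M * |(U x 0 : ℝ)| + 4 * (t : ℝ) / M * |(U x 0 : ℝ)| := by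
        push_cast
        ring
      rw [h15]
      linarith
  have h1 := key n le_rfl
  have h2 : U x n = U x 0 := by
    unfold U
    rw [hn]
    rfl
  rw [h2] at h1
  have hu0 : 0 < |(U x 0 : ℝ)| := abs_pos.2 (by exact_mod_cast U_ne x 0)
  have h3 : (Y (JJ x) n : ℝ) * (U x 0 : ℝ) - (U x 0 : ℝ) =
      ((Y (JJ x) n : ℝ) - 1) * (U x 0 : ℝ) := by ring
  rw [h3, abs_mul] at h1
  exact le_of_mul_le_mul_right h1 hu0

theorem th2 (hS : SubY) (m : ℕ) : ∃ η : ℝ, 0 < η ∧
    {x : ℤ | x ∈ Function.periodicPts Tm ∧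
      FewBlocks m (η * Function.minimalPeriod Tm x) x (Function.minimalPeriod Tm x)}.Finite := by
  classical
  obtain ⟨T, hT⟩ := exists_T
  obtain ⟨η, hη0, hηh, hth⟩ := th1 hS (2 * m + 1) (1 / 2) (by norm_num)
  obtain ⟨η2, hη2, N1, hLB⟩ := lbm hS hT (Finset.univ : Finset Bool) (1 / 2) (1 / 2)
    (by norm_num) (by norm_num)
  -- growth
  obtain ⟨N2, hN2⟩ : ∃ N2 : ℕ, ∀ n : ℕ, N2 ≤ n → 4 * (n : ℝ) < (3 / 2 : ℝ) ^ ((1 / 2 : ℝ) * n) := by
    have hr : (1 : ℝ) < (3 / 2 : ℝ) ^ (1 / 2 : ℝ) := Real.one_lt_rpow (by norm_num) (by norm_num)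
    have h1 := tendsto_pow_const_div_const_pow_of_one_lt 1 hr
    have h2 := h1.eventually (gt_mem_nhds (show (0:ℝ) < 1 / 4 by norm_num))
    obtain ⟨N2, hN2⟩ := Filter.eventually_atTop.1 h2
    refine ⟨N2, fun n hn => ?_⟩
    have h3 := hN2 n hn
    have h4 : (0:ℝ) < ((3 / 2 : ℝ) ^ (1 / 2 : ℝ)) ^ n := by positivity
    rw [pow_one, div_lt_iff₀ h4] at h3
    have h5 : (3 / 2 : ℝ) ^ ((1 / 2 : ℝ) * n) = ((3 / 2 : ℝ) ^ (1 / 2 : ℝ)) ^ n := by
      rw [← Real.rpow_natCast, ← Real.rpow_mul (by norm_num)]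
    rw [h5]
    linarith
  refine ⟨η, hη0, ?_⟩
  set L : ℕ := max (max N1 N2) 1 with hL
  have hsub : {x : ℤ | x ∈ Function.periodicPts Tm ∧
      FewBlocks m (η * Function.minimalPeriod Tm x) x (Function.minimalPeriod Tm x)} ⊆
      Set.Icc (-(7 : ℤ) ^ L) (7 ^ L) := by
    rintro x ⟨hper, hFB⟩
    set n : ℕ := Function.minimalPeriod Tm x with hn
    have hn1 : 1 ≤ n := Function.minimalPeriod_pos_of_mem_periodicPts hper
    have hnx : Tm^[n] x = x := Function.iterate_minimalPeriod
    have hsurv := hFB.1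
    have hxb := cycle_bound x n hn1 hnx hsurv
    have hnL : n ≤ L := by
      by_contra hcon
      push Not at hcon
      have hnN1 : N1 ≤ n := ((le_max_left _ _).trans (le_max_left _ _)).trans hcon.le
      have hnN2 : N2 ≤ n := ((le_max_right _ _).trans (le_max_left _ _)).trans hcon.le
      have hnpos : (0:ℝ) < n := by exact_mod_cast hn1
      -- all elements are large
      have hbig : ∀ t < n, (3 : ℝ) ^ ((1 / 2 : ℝ) * n) ≤ |(U x t : ℝ)| := by
        intro t ht
        have h1 := fewBlocks_rot m _ x n t hnx ht hFB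
        rcases hth (Tm^[t] x) n _ hn1 le_rfl h1 with h3 | ⟨t', p, _, hp1, hp2, hp3⟩
        · refine le_trans ?_ (h3.le.trans (abs_le_U x t))
          apply Real.rpow_le_rpow_of_exponent_le (by norm_num)
          linarith
        · exfalso
          rw [← Function.iterate_add_apply, ← Function.iterate_add_apply] at hp3
          have h4 : Function.IsPeriodicPt Tm p (Tm^[t' + t] x) := by
            unfold Function.IsPeriodicPt Function.IsFixedPt
            rw [← Function.iterate_add_apply]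
            rw [show p + (t' + t) = t' + p + t by ring]
            exact hp3
          have h5 : Function.minimalPeriod Tm (Tm^[t' + t] x) = n :=
            Function.minimalPeriod_apply_iterate hper _
          have h6 : n ≤ p := by
            rw [← h5]
            exact h4.minimalPeriod_le hp1
          have h7 : (n : ℝ) ≤ p := by exact_mod_cast h6
          have h8 : η * n < n := by nlinarith
          linarith
      have h4n := hN2 n hnN2
      have hM1 : (1 : ℝ) ≤ (3 : ℝ) ^ ((1 / 2 : ℝ) * n) :=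
        Real.one_le_rpow (by norm_num) (by positivity)
      have hM4 : 4 * (n : ℝ) ≤ (3 : ℝ) ^ ((1 / 2 : ℝ) * n) :=
        h4n.le.trans (Real.rpow_le_rpow (by norm_num) (by norm_num) (by positivity))
      have hclose := close_one x n hnx hsurv _ hM4 hM1 hbig
      have hJn : JJ x n ≤ n := jn_le _ _
      have h1 := hLB n hnN1 (fun i => if i then -(JJ x n : ℤ) else 0)
        (fun i => if i then (n : ℤ) else 0) (fun i => if i then 1 else -1)
        (fun i _ => by
          cases i
          · simp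
          · simp only [if_true]
            rw [abs_neg, abs_of_nonneg (by positivity), abs_of_nonneg (by positivity)]
            exact ⟨by exact_mod_cast hJn, le_rfl⟩)
        (fun i _ j _ => by
          cases i <;> cases j <;> simp
          · exact_mod_cast hJn
          · exact_mod_cast hJn)
        (fun i _ j _ hij => by
          cases i <;> cases j <;> simp at hij ⊢ <;> linarith)
        (fun i _ => by
          have h2 : (1 : ℝ) ≤ (2 : ℝ) ^ (η2 * n) := Real.one_le_rpow (by norm_num) (by positivity)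
          cases i <;> simp [h2])
        vI false (Finset.mem_univ _)
      have h2 : ∑ j : Bool, (((if j then (1:ℤ) else -1 : ℤ)) : ℚ) * ((7 : ℚ) ^ (if j then
          -(JJ x n : ℤ) else 0) * 3 ^ (if j then (n : ℤ) else 0)) = Y (JJ x) n - 1 := by
        rw [Fintype.sum_bool]
        unfold Y
        simp
        ring
      rw [h2, nS_vI, nS_vI] at h1
      simp only [Bool.false_eq_true, if_false, zpow_zero, mul_one] at h1
      push_cast at h1
      rw [abs_one, one_mul] at h1
      have h3 := h1.trans_le hclose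
      have h3pos : (0:ℝ) < (3 : ℝ) ^ ((1 / 2 : ℝ) * n) := by positivity
      rw [lt_div_iff₀ h3pos] at h3
      have h5 : (2 : ℝ) ^ (-(1 / 2 : ℝ) * n) * (3 : ℝ) ^ ((1 / 2 : ℝ) * n) =
          (3 / 2 : ℝ) ^ ((1 / 2 : ℝ) * n) := by
        rw [Real.div_rpow (by norm_num) (by norm_num), neg_mul, Real.rpow_neg (by norm_num)]
        field_simp
      rw [h5] at h3
      linarith
    have h7 : (7 : ℤ) ^ n ≤ 7 ^ L := pow_le_pow_right₀ (by norm_num) hnL
    have h8 := abs_le.1 (hxb.trans h7)
    exact ⟨h8.1, h8.2⟩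
  exact (Set.finite_Icc _ _).subset hsub

end Pool.Agent.Helper42.TT
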