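import Pool.Agent.Helper42.TT.Th1

/-!
# Theorem 3: the number of branch changes of a nonperiodic survivor (MP_9d5c58_nt)
-/

set_option autoImplicit false

open NumberField Pool.Agent.Helper92.Ru Pool.Agent.Helper17.Rg

namespace Pool.Agent.Helper42.TT

/-- number of branch changes before time `n` -/
noncomputable def ch (x : ℤ) (n : ℕ) : ℕ :=
  ((Finset.range n).filter (fun t => Tm^[t + 1] x % 3 ≠ Tm^[t] x % 3)).card

theorem U_growth (x : ℤ) (h3 : ∀ k, ¬ (3 : ℤ) ∣ Tm^[k] x) (k : ℕ) :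
    |(U x k : ℝ)| ≤ (7 / 3 : ℝ) ^ k * |(U x 0 : ℝ)| := by
  induction k with
  | zero => simp
  | succ k ih =>
    have h1 : |(U x (k + 1) : ℝ)| ≤ 7 / 3 * |(U x k : ℝ)| := by
      have h2 := U_step x k (h3 k)
      have h1u : (1 : ℝ) ≤ |(U x k : ℝ)| := by
        rw [← Int.cast_abs]
        exact_mod_cast Int.one_le_abs (U_ne x k)
      by_cases hw : w x k = true
      · rw [if_pos hw] at h2
        have h4 : (U x (k + 1) : ℝ) = 7 / 3 * (U x k : ℝ) := by
          have : (3 : ℝ) * (U x (k + 1) : ℝ) = 7 * (U x k : ℝ) := by exact_mod_cast h2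
          linarith
        rw [h4, abs_mul, abs_of_pos (by norm_num : (0:ℝ) < 7 / 3)]
      · rw [if_neg hw] at h2
        have h4 : (U x (k + 1) : ℝ) = 1 / 3 * ((U x k : ℝ) + 2) := by
          have : (3 : ℝ) * (U x (k + 1) : ℝ) = (U x k : ℝ) + 2 := by exact_mod_cast h2
          linarith
        rw [h4, abs_mul, abs_of_pos (by norm_num : (0:ℝ) < 1 / 3)]
        have h5 := abs_add_le (U x k : ℝ) 2
        rw [abs_two] at h5
        linarith
    rw [pow_succ]
    nlinarith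

theorem abs_le_U (x : ℤ) (k : ℕ) : |((Tm^[k] x : ℤ) : ℝ)| ≤ |(U x k : ℝ)| := by
  have h : |Tm^[k] x| ≤ |U x k| := by
    unfold U
    rcases abs_cases (Tm^[k] x) with ⟨h1, _⟩ | ⟨h1, _⟩ <;>
    rcases abs_cases (-(2 * Tm^[k] x + 1)) with ⟨h2, _⟩ | ⟨h2, _⟩ <;> rw [h1, h2] <;> omega
  have h2 : ((|Tm^[k] x| : ℤ) : ℝ) ≤ ((|U x k| : ℤ) : ℝ) := by exact_mod_cast h
  rwa [Int.cast_abs, Int.cast_abs] at h2

theorem size_bound (x : ℤ) (h3 : ∀ k, ¬ (3 : ℤ) ∣ Tm^[k] x) :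
    ∃ k0 : ℕ, ∀ k, k0 ≤ k → |((Tm^[k] x : ℤ) : ℝ)| ≤ (3 : ℝ) ^ ((1 - 1 / 10 : ℝ) * k) := by
  -- `3 ^ (9/10) > 7/3`
  have h1 : (7 / 3 : ℝ) < (3 : ℝ) ^ (9 / 10 : ℝ) := by
    have h2 : (7 / 3 : ℝ) = ((7 / 3 : ℝ) ^ (10 : ℝ)) ^ (1 / 10 : ℝ) := by
      rw [← Real.rpow_mul (by norm_num)]
      norm_num
    have h3' : (3 : ℝ) ^ (9 / 10 : ℝ) = ((3 : ℝ) ^ (9 : ℝ)) ^ (1 / 10 : ℝ) := by
      rw [← Real.rpow_mul (by norm_num)]
      norm_num
    rw [h2, h3']
    apply Real.rpow_lt_rpow (by positivity) _ (by norm_num)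
    norm_num
  set ρ : ℝ := (3 : ℝ) ^ (9 / 10 : ℝ) / (7 / 3) with hρ
  have hρ1 : 1 < ρ := by
    rw [hρ, one_lt_div (by norm_num)]
    exact h1
  obtain ⟨k0, hk0⟩ := pow_unbounded_of_one_lt |(U x 0 : ℝ)| hρ1
  refine ⟨k0, fun k hk => ?_⟩
  refine (abs_le_U x k).trans ((U_growth x h3 k).trans ?_)
  have h5 : |(U x 0 : ℝ)| ≤ ρ ^ k := hk0.le.trans (pow_le_pow_right₀ hρ1.le hk)
  calc (7 / 3 : ℝ) ^ k * |(U x 0 : ℝ)| ≤ (7 / 3 : ℝ) ^ k * ρ ^ k := by gcongr
    _ = ((3 : ℝ) ^ (9 / 10 : ℝ)) ^ k := by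
        rw [← mul_pow, hρ]
        congr 1
        field_simp
    _ = (3 : ℝ) ^ ((1 - 1 / 10 : ℝ) * k) := by
        rw [← Real.rpow_natCast, ← Real.rpow_mul (by norm_num)]
        norm_num

/-- few changes: few blocks -/
theorem few_of_ch (x : ℤ) (h3 : ∀ k, ¬ (3 : ℤ) ∣ Tm^[k] x) (k m : ℕ) (P : ℝ) (hP : 1 ≤ P)
    (h : ch x (2 * k) ≤ ch x k + m) : FewBlocks m P (Tm^[k] x) k := by
  classical
  refine ⟨fun t _ => by rw [← Function.iterate_add_apply]; exact h3 _, ?_⟩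
  let B : Finset ℕ := (Finset.range (2 * k)).filter
    (fun t => k ≤ t ∧ Tm^[t + 1] x % 3 ≠ Tm^[t] x % 3)
  have hB : B.card ≤ m := by
    have h1 : ch x k + B.card = ch x (2 * k) := by
      unfold ch
      rw [← Finset.card_union_of_disjoint]
      · congr 1
        ext t
        simp only [B, Finset.mem_union, Finset.mem_filter, Finset.mem_range]
        constructor
        · rintro (⟨h1, h2⟩ | ⟨h1, h2, h3⟩)
          · exact ⟨by omega, h2⟩
          · exact ⟨h1, h3⟩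
        · rintro ⟨h1, h2⟩
          by_cases h4 : t < k
          · exact Or.inl ⟨h4, h2⟩
          · exact Or.inr ⟨h1, by omega, h2⟩
      · rw [Finset.disjoint_left]
        intro t h1 h2
        simp only [B, Finset.mem_filter, Finset.mem_range] at h1 h2
        omega
    omega
  refine ⟨B.image (fun t => t + 1 - k), Finset.card_image_le.trans hB, ?_⟩
  intro a b hab hbk hcut
  refine ⟨1, le_rfl, by exact_mod_cast hP, fun t hat htb => ?_⟩
  by_contra hne
  apply hcut (t + 1)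
  · refine Finset.mem_image.2 ⟨t + k, ?_, by omega⟩
    simp only [B, Finset.mem_filter, Finset.mem_range]
    refine ⟨by omega, by omega, ?_⟩
    rw [← Function.iterate_add_apply, ← Function.iterate_add_apply] at hne
    rw [show t + k + 1 = t + 1 + k by ring]
    exact hne
  · omega

theorem ch_mono (x : ℤ) {a b : ℕ} (h : a ≤ b) : ch x a ≤ ch x b := by
  unfold ch
  apply Finset.card_le_card
  apply Finset.filter_subset_filter
  exact Finset.range_subset_range.2 h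

theorem th3 (hS : SubY) (x : ℤ) (h3 : ∀ k, ¬ (3 : ℤ) ∣ Tm^[k] x)
    (hnp : ∀ i j, i < j → Tm^[i] x ≠ Tm^[j] x) (C : ℝ) :
    ∃ n0 : ℕ, ∀ n, n0 ≤ n → C * Real.log n ≤ (ch x n : ℝ) := by
  obtain ⟨m, hm⟩ : ∃ m : ℕ, 2 * C ≤ m := exists_nat_ge _
  obtain ⟨η, hη, _, hth⟩ := th1 hS (m + 1) (1 / 10) (by norm_num)
  obtain ⟨k1, hk1⟩ := size_bound x h3
  obtain ⟨k2, hk2⟩ : ∃ k2 : ℕ, 1 / η ≤ k2 := exists_nat_ge _
  set k0 : ℕ := max (max k1 k2) 1 with hk0
  have hk01 : 1 ≤ k0 := le_max_right _ _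
  have hstep : ∀ k, k0 ≤ k → ch x k + (m + 1) ≤ ch x (2 * k) := by
    intro k hk
    by_contra hcon
    push Not at hcon
    have hkk1 : k1 ≤ k := ((le_max_left _ _).trans (le_max_left _ _)).trans hk
    have hkk2 : k2 ≤ k := ((le_max_right _ _).trans (le_max_left _ _)).trans hk
    have hηk : 1 ≤ η * k := by
      have h1 : 1 / η ≤ k := hk2.trans (by exact_mod_cast hkk2)
      rw [div_le_iff₀ hη] at h1
      linarith
    have hFB := few_of_ch x h3 k (m + 1) (η * k) hηk hcon.le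
    rcases hth (Tm^[k] x) k _ (hk01.trans hk) le_rfl hFB with h1 | ⟨t, p, _, hp1, _, hp3⟩
    · have h2 := hk1 k hkk1
      linarith
    · rw [← Function.iterate_add_apply, ← Function.iterate_add_apply] at hp3
      exact hnp (t + k) (t + p + k) (by omega) hp3.symm
  have hpow : ∀ i, i * (m + 1) ≤ ch x (2 ^ i * k0) := by
    intro i
    induction i with
    | zero => simp
    | succ i ih =>
      have h1 : k0 ≤ 2 ^ i * k0 := Nat.le_mul_of_pos_left _ (by positivity)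
      have h2 := hstep _ h1
      have h4 : 2 * (2 ^ i * k0) = 2 ^ (i + 1) * k0 := by ring
      rw [h4] at h2
      calc (i + 1) * (m + 1) = i * (m + 1) + (m + 1) := by ring
        _ ≤ _ := by omega
  obtain ⟨n1, hn1⟩ : ∃ n1 : ℕ, 2 * (Real.log k0 + 1) ≤ Real.log n1 := by
    obtain ⟨n1, hn1⟩ := exists_nat_ge (Real.exp (2 * (Real.log k0 + 1)))
    refine ⟨n1, ?_⟩
    have h1 := Real.log_le_log (Real.exp_pos _) hn1
    rwa [Real.log_exp] at h1
  refine ⟨max n1 k0, fun n hn => ?_⟩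
  have hnk0 : k0 ≤ n := (le_max_right _ _).trans hn
  have hnn1 : n1 ≤ n := (le_max_left _ _).trans hn
  have hnpos : 0 < n := by omega
  have hk0pos : (0:ℝ) < k0 := by exact_mod_cast hk01
  have hk0ne : k0 ≠ 0 := by omega
  set i : ℕ := Nat.log 2 (n / k0) with hi
  have hdiv : n / k0 ≠ 0 := by
    have := Nat.div_pos hnk0 hk01
    omega
  have h1 : 2 ^ i ≤ n / k0 := Nat.pow_log_le_self 2 hdiv
  have h2 : 2 ^ i * k0 ≤ n := (Nat.mul_le_mul_right _ h1).trans (Nat.div_mul_le_self n k0)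
  have h3' : n < 2 ^ (i + 1) * k0 := by
    have h4 : n / k0 < 2 ^ (i + 1) := Nat.lt_pow_succ_log_self (by norm_num) _
    exact (Nat.div_lt_iff_lt_mul hk01).1 h4
  have h5 : (i * (m + 1) : ℕ) ≤ ch x n := (hpow i).trans (ch_mono x h2)
  have h6 : Real.log n ≤ (i + 1) * Real.log 2 + Real.log k0 := by
    have h7 : (n : ℝ) ≤ 2 ^ (i + 1) * k0 := by exact_mod_cast h3'.le
    have h8 := Real.log_le_log (by exact_mod_cast hnpos) h7
    rw [Real.log_mul (by positivity) hk0pos.ne', Real.log_pow] at h8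
    push_cast at h8
    exact h8
  have hlog2 : Real.log 2 < 1 := by
    have := Real.log_two_lt_d9
    linarith
  have hlk0 : 0 ≤ Real.log k0 := Real.log_nonneg (by exact_mod_cast hk01)
  have h9 : Real.log n ≤ i + 1 + Real.log k0 := by
    have : ((i : ℝ) + 1) * Real.log 2 ≤ (i + 1) * 1 :=
      mul_le_mul_of_nonneg_left hlog2.le (by positivity)
    linarith
  have h10 : 2 * (Real.log k0 + 1) ≤ Real.log n := by
    refine hn1.trans ?_
    by_cases hn10 : n1 = 0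
    · exfalso
      rw [hn10] at hn1
      simp at hn1
      linarith
    · exact Real.log_le_log (by exact_mod_cast Nat.pos_of_ne_zero hn10) (by exact_mod_cast hnn1)
  have h11 : ((i : ℝ) * (m + 1)) ≤ (ch x n : ℝ) := by exact_mod_cast h5
  refine le_trans ?_ h11
  have hm0 : (0:ℝ) ≤ m := Nat.cast_nonneg m
  have h12 : Real.log n / 2 ≤ i := by linarith
  have hln : 0 ≤ Real.log n := by linarith
  nlinarith

end Pool.Agent.Helper42.TT
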